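import Pool.Agent.NCP.Stmts

/-!
# Analytic capacity of sets with large components: module statements, part 2 (MP_98e313_an)
-/

set_option autoImplicit false

namespace Pool.Agent.NCP

open MeasureTheory Set Pool.Agent.ANL

/-- BUMP: the boundary bumping theorem.
Proof. `L = K ∩ closedBall x r` is compact. Let `C` be the connected component of `x` in `L` (`connectedComponentIn L x`, or the image of `connectedComponent` in the subtype `L`): it is closed in `L`, so compact,
preconnected, and contains `x`. Suppose that it has no point with `‖y - x‖ = r`, i.e. `C ⊆ ball x r`. In the compact space `L` the component is the intersection of the clopen sets which contain `x`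
(`connectedComponent_eq_iInter_isClopen`); by compactness (`exists_subset_of_…` / the closed set `L ∩ sphere x r`, directed family of clopen sets) there is a clopen subset `U` of `L` with `x ∈ U ⊆ ball x r`.
`U` is compact, so closed, and `K \ U` is closed too: it is `(K \ ball x r) ∪ (L \ U)`, as `U ⊆ ball x r`. So `K` is the disjoint union of the closed sets `U ∋ x` and `K \ U ∋ y`, `‖y - x‖ > r`: a contradiction to
`IsPreconnected K` (`isPreconnected_closed_iff`). -/
def Stmt_BUMP : Prop := ∀ (K : Set ℂ) (x : ℂ) (r : ℝ), IsCompact K → IsPreconnected K → x ∈ K →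
  0 < r → (∃ y ∈ K, r < ‖y - x‖) →
  ∃ C : Set ℂ, C ⊆ K ∩ Metric.closedBall x r ∧ IsCompact C ∧ IsPreconnected C ∧ x ∈ C ∧
    ∃ y ∈ C, ‖y - x‖ = r

/-- FATB: the part near a point has a large capacity.
Proof. Hypotheses `Stmt_BUMP`, `Stmt_CONT`. `K = closure S ⊆ E` is compact and preconnected; some `y ∈ K` has `δ / 4 < ‖y - x‖` (otherwise `S ⊆ closedBall x (δ / 4)`, `diam S ≤ δ / 2`). `BUMP` with
`r = δ / 4` gives `C`; if `a, b ∈ C` are points with the largest distance then `gam C ≥ ‖a - b‖ / 16 ≥ δ / 64` (`CONT`). -/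
def Stmt_FATB : Prop := ∀ (E : Set ℂ) (x : ℂ) (δ : ℝ), IsCompact E → 0 < δ →
  (∃ S ⊆ E, IsPreconnected S ∧ x ∈ S ∧ δ ≤ Metric.diam S) →
  δ / 64 ≤ FCC.gam (E ∩ Metric.closedBall x (δ / 4))

/-- NETM: the number of separated points.
Proof. Hypothesis `Stmt_BUMP`. Let the balls `(c k, ρ k)` cover `E`, `∑ ρ k ≤ R`. Call `x ∈ T` large if some ball `k` with `δ / 32 ≤ ρ k` has `‖c k - x‖ ≤ ρ k + δ / 16` (`≤ 3 ρ k`). Number of large points: the map
`z ↦ (⌊8 z.re / δ⌋, ⌊8 z.im / δ⌋)` is injective on `T` (two points of a cell have distance `< √2 δ / 8 < δ / 4`); the points of `T` in `closedBall (c k) (3 ρ k)` have at most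
`(48 ρ k / δ + 2)² ≤ (112 ρ k / δ)²` values; in total at most `12544 (R / δ)²` (`∑ ρ k² ≤ (∑ ρ k)²`). If `x` is not large: let `S ∋ x` be the connected set, `K = closure S`; it has a point with distance
`> δ / 16` from `x`; `C` from `BUMP` with `r = δ / 16`, `y ∈ C`, `‖y - x‖ = r`. The balls `k` which meet `C` have `ρ k < δ / 32` and `‖c k - x‖ < δ / 16 + δ / 32 < δ / 8`; so a ball belongs to at most one such `x`
(the points of `T` have distances `> δ / 4`), and `∑ 2 ρ k ≥ δ / 16` over the balls which meet `C`: the projection `f` of the plane to the line through `x`, `y` (a `1`-Lipschitz function with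
`f y - f x = ‖y - x‖`) maps `C` onto a connected set which contains `[f x, f y]`, and it is covered by the intervals `[f (c k) - ρ k, f (c k) + ρ k]` (see `CHORD.length_le` in ANL/CHORD.lean). So at most
`32 R / δ` points are not large. Together `≤ 12544 (R / δ)² + 32 R / δ ≤ 13000 (1 + R / δ)²`. -/
def Stmt_NETM : Prop := ∀ (E : Set ℂ) (δ R : ℝ), IsCompact E → 0 < δ →
  (∀ x ∈ E, ∃ S ⊆ E, IsPreconnected S ∧ x ∈ S ∧ δ ≤ Metric.diam S) → Cov E R →
  ∀ T : Finset ℂ, (∀ x ∈ T, x ∈ E) → (∀ x ∈ T, ∀ y ∈ T, x ≠ y → δ / 4 < ‖x - y‖) →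
  (T.card : ℝ) ≤ 13000 * (1 + R / δ) ^ 2

/-- COVC: the content of a compact set and finite covers by balls.
Proof. `cont1 E < s`: there are bounded `U n` (`n : ℕ`) which cover `E`, with summable diameters of sum `s₀ < s`. Let `η = (s - s₀) / 2`, `r n = diam (U n) + η (1 / 2) ^ n`; if `U n` is not empty let `c n ∈ U n`: then
`U n ⊆ ball (c n) (r n)`. By compactness finitely many of the open balls cover `E`; the sum of their radii is at most `s₀ + 2 η = s` (`CHORD.cov_of`, or `Finset.equivFin`, for the index type). -/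
def Stmt_COVC : Prop := ∀ (E : Set ℂ) (s : ℝ), IsCompact E → cont1 E < s → Cov E s

/-- LARM: the theorem for sets with large components.
Proof. Hypotheses `Stmt_NCPM`, `Stmt_FATB`, `Stmt_NETM`, `Stmt_COVC`. A maximal set `T ⊆ E` with distances `> δ / 4` is finite (`E` is compact) and `E` is the union of the sets `E ∩ closedBall x (δ / 4)`,
`x ∈ T`; they have diameter at most `δ / 2` and capacity at least `δ / 64` (`FATB`): `NCPM` with `θ = 1 / 32`. `H = cont1 E`: `Cov E (H + δ)` by `COVC`, so `card T ≤ 13000 (2 + H / δ)²` and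
`1 + log (card T) ≤ 1 + log 13000 + 2 log 2 + 2 log (1 + H / δ) ≤ 13 (1 + log (1 + H / δ))`. -/
def Stmt_LARM : Prop := ∃ C : ℝ, 0 < C ∧ ∀ (E : Set ℂ) (δ : ℝ), IsCompact E → 0 < δ →
  (∀ x ∈ E, ∃ S ⊆ E, IsPreconnected S ∧ x ∈ S ∧ δ ≤ Metric.diam S) →
  cont1 E ≤ C * √(1 + Real.log (1 + cont1 E / δ)) * FCC.gam E ∧
  FCC.Fav E ≤ C * √(1 + Real.log (1 + cont1 E / δ)) * FCC.gam E

end Pool.Agent.NCP
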