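import Mathlib
import Pool.Agent.NCP.Stmts2

/-!
# BUMP: the boundary bumping theorem
-/

set_option autoImplicit false

namespace Pool.Agent.NCP

open MeasureTheory Set Pool.Agent.ANL

theorem BUMP_thm : Stmt_BUMP := by
  intro K x r hK hKc hx hr hy
  obtain ⟨y, hyK, hyr⟩ := hy
  have hL : IsCompact (K ∩ Metric.closedBall x r) := hK.inter_right Metric.isClosed_closedBall
  obtain ⟨L, hLdef⟩ : ∃ L, L = K ∩ Metric.closedBall x r := ⟨_, rfl⟩
  rw [← hLdef] at hL
  have hxL : x ∈ L := by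
    rw [hLdef]
    exact ⟨hx, Metric.mem_closedBall_self hr.le⟩
  have hcomp : CompactSpace L := isCompact_iff_compactSpace.1 hL
  have hLK : ∀ z : L, (z : ℂ) ∈ K ∧ ‖(z : ℂ) - x‖ ≤ r := by
    intro z
    have h1 : (z : ℂ) ∈ K ∩ Metric.closedBall x r := hLdef.subset z.2
    refine ⟨h1.1, ?_⟩
    have h2 := h1.2
    rwa [Metric.mem_closedBall, dist_eq_norm] at h2
  refine ⟨Subtype.val '' connectedComponent (⟨x, hxL⟩ : L), ?_, ?_, ?_, ?_, ?_⟩
  · rintro _ ⟨z, -, rfl⟩
    exact hLdef.subset z.2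
  · exact (isClosed_connectedComponent.isCompact).image continuous_subtype_val
  · exact isPreconnected_connectedComponent.image _ continuous_subtype_val.continuousOn
  · exact ⟨⟨x, hxL⟩, mem_connectedComponent, rfl⟩
  · by_contra hno
    push Not at hno
    have hS : IsCompact {z : L | ‖(z : ℂ) - x‖ = r} := by
      refine IsClosed.isCompact ?_
      exact isClosed_eq (continuous_norm.comp (continuous_subtype_val.sub continuous_const))
        continuous_const
    have hne : Nonempty {s : Set L // IsClopen s ∧ (⟨x, hxL⟩ : L) ∈ s} :=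
      ⟨⟨univ, isClopen_univ, mem_univ _⟩⟩
    obtain ⟨U, hU⟩ := hS.elim_directed_family_closed
      (fun s : {s : Set L // IsClopen s ∧ (⟨x, hxL⟩ : L) ∈ s} => (s : Set L))
      (fun s => s.2.1.isClosed) (by
        rw [← connectedComponent_eq_iInter_isClopen]
        rw [eq_empty_iff_forall_notMem]
        rintro z ⟨hz1, hz2⟩
        exact hno z ⟨z, hz2, rfl⟩ hz1)
      (fun s t => ⟨⟨s.1 ∩ t.1, s.2.1.inter t.2.1, s.2.2, t.2.2⟩, inter_subset_left,
        inter_subset_right⟩)
    have hUS : ∀ z ∈ U.1, ‖(z : ℂ) - x‖ < r := by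
      intro z hz
      refine lt_of_le_of_ne (hLK z).2 fun h => ?_
      have h1 : z ∈ {z : L | ‖(z : ℂ) - x‖ = r} ∩ (U : Set L) := ⟨h, hz⟩
      rw [hU] at h1
      exact h1
    have hclU : IsClosed (Subtype.val '' U.1 : Set ℂ) :=
      (U.2.1.isClosed.isCompact.image continuous_subtype_val).isClosed
    have hclV : IsClosed ((K \ Metric.ball x r) ∪ Subtype.val '' (U.1ᶜ) : Set ℂ) := by
      refine IsClosed.union (hK.isClosed.sdiff Metric.isOpen_ball) ?_
      exact (U.2.1.compl.isClosed.isCompact.image continuous_subtype_val).isClosed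
    obtain ⟨z, -, hz1, hz2⟩ := isPreconnected_closed_iff.1 hKc _ _ hclU hclV
      (by
        intro z hz
        by_cases hzb : z ∈ Metric.ball x r
        · have hzL : z ∈ L := by
            rw [hLdef]
            exact ⟨hz, Metric.ball_subset_closedBall hzb⟩
          by_cases hzU : (⟨z, hzL⟩ : L) ∈ U.1
          · exact Or.inl ⟨_, hzU, rfl⟩
          · exact Or.inr (Or.inr ⟨_, hzU, rfl⟩)
        · exact Or.inr (Or.inl ⟨hz, hzb⟩))
      ⟨x, hx, ⟨⟨x, hxL⟩, U.2.2, rfl⟩⟩
      ⟨y, hyK, Or.inl ⟨hyK, by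
        rw [Metric.mem_ball, dist_eq_norm]
        linarith⟩⟩
    obtain ⟨u, hu, rfl⟩ := hz1
    rcases hz2 with ⟨-, h2⟩ | ⟨w, hw, hwu⟩
    · apply h2
      rw [Metric.mem_ball, dist_eq_norm]
      exact hUS u hu
    · exact hw ((Subtype.ext hwu : w = u) ▸ hu)

end Pool.Agent.NCP
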