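import Pool.Agent.NCP.Stmts
import Pool.Agent.FCC.MAXP

/-!
# The analytic capacity of a connected compact set
-/

set_option autoImplicit false

namespace Pool.Agent.NCP.CONT

open MeasureTheory Set Filter Topology

/-- The behaviour of `(z - (a + b) / 2) - √((z - a) (z - b))` at infinity. -/
lemma limits (a b : ℂ) (q : ℂ → ℂ) (S : Set ℂ) (hS : IsCompact S)
    (hq : ∀ z ∉ S, q z ^ 2 * (z - b) = z - a) (hlim : Tendsto q (cocompact ℂ) (𝓝 1)) :
    Tendsto (fun z => (z - (a + b) / 2) - (z - b) * q z) (cocompact ℂ) (𝓝 0) ∧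
    Tendsto (fun z => z * ((z - (a + b) / 2) - (z - b) * q z)) (cocompact ℂ)
      (𝓝 ((a - b) ^ 2 / 8)) := by
  have hinv : Tendsto (fun z : ℂ => z⁻¹) (cocompact ℂ) (𝓝 0) := by
    simpa using FCC.MAXP.inv_tendsto 0
  have hS' : ∀ᶠ z in cocompact ℂ, z ∉ S := hS.compl_mem_cocompact
  have h0 : ∀ᶠ z in cocompact ℂ, z ≠ 0 := by
    have : ({0} : Set ℂ)ᶜ ∈ cocompact ℂ := isCompact_singleton.compl_mem_cocompact
    filter_upwards [this] with z hz
    simpa using hz
  have hH : Tendsto (fun z => (1 - (a + b) / 2 * z⁻¹) + (1 - b * z⁻¹) * q z) (cocompact ℂ)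
      (𝓝 2) := by
    have h1 := (hinv.const_mul ((a + b) / 2)).const_sub 1
    have h2 := ((hinv.const_mul b).const_sub 1).mul hlim
    have h3 := h1.add h2
    have e : (1 - (a + b) / 2 * 0) + (1 - b * 0) * 1 = (2 : ℂ) := by norm_num
    rwa [e] at h3
  have hne : ∀ᶠ z in cocompact ℂ, (1 - (a + b) / 2 * z⁻¹) + (1 - b * z⁻¹) * q z ≠ 0 :=
    hH.eventually_ne (by norm_num)
  have hzg : Tendsto (fun z => z * ((z - (a + b) / 2) - (z - b) * q z)) (cocompact ℂ)
      (𝓝 ((a - b) ^ 2 / 8)) := by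
    have h := (hH.inv₀ (by norm_num)).const_mul ((a - b) ^ 2 / 4)
    have e : (a - b) ^ 2 / 4 * (2 : ℂ)⁻¹ = (a - b) ^ 2 / 8 := by ring
    rw [e] at h
    refine h.congr' ?_
    filter_upwards [hS', h0, hne] with z hz hz0 hzne
    rw [← div_eq_mul_inv, div_eq_iff hzne]
    have hqz := hq z hz
    have hw : z * z⁻¹ = 1 := mul_inv_cancel₀ hz0
    linear_combination (z - b) * hqz +
      ((z - (a + b) / 2) - (z - b) * q z) * ((a + b) / 2 + b * q z) * hw
  refine ⟨?_, hzg⟩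
  have h := hinv.mul hzg
  rw [zero_mul] at h
  refine h.congr' ?_
  filter_upwards [h0] with z hz
  rw [← mul_assoc, inv_mul_cancel₀ hz, one_mul]

/-- The capacity of a neighbourhood. -/
lemma cap (hMAXA : Stmt_MAXA) (hROOT : Stmt_ROOT) (K : Set ℂ) (a b : ℂ) (hK : IsCompact K)
    (hc : IsPreconnected K) (ha : a ∈ K) (hb : b ∈ K)
    (h : ∀ u ∈ K, ‖u - a‖ ≤ ‖a - b‖ ∧ ‖u - b‖ ≤ ‖a - b‖) (ε : ℝ) (hε : 0 < ε) :
    ‖a - b‖ ^ 2 / (16 * (‖a - b‖ + 3 * ε)) ≤ FCC.gam (Metric.cthickening ε K) := by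
  obtain ⟨q, hqd, hq, hql⟩ := hROOT K a b ε hc ha hb hε
  have hK' : IsCompact (Metric.cthickening ε K) := hK.cthickening
  obtain ⟨hl0, hl1⟩ := limits a b q _ hK' hq hql
  have hd0 : 0 ≤ ‖a - b‖ := norm_nonneg _
  set d : ℝ := ‖a - b‖ with hd
  set g : ℂ → ℂ := fun z => (z - (a + b) / 2) - (z - b) * q z with hg
  have hgd : DifferentiableOn ℂ g (Metric.cthickening ε K)ᶜ :=
    (differentiableOn_id.sub_const _).sub ((differentiableOn_id.sub_const b).mul hqd)
  set Λ : ℝ := 2 * (d + 3 * ε) with hΛ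
  have hΛ0 : 0 < Λ := by positivity
  have hnear : ∀ z ∉ Metric.cthickening ε K,
      (∃ x ∈ Metric.cthickening ε K, ‖z - x‖ ≤ ε) → ‖g z‖ ≤ Λ := by
    rintro z hz ⟨x', hx', hzx'⟩
    rw [hK.cthickening_eq_biUnion_closedBall hε.le, mem_iUnion₂] at hx'
    obtain ⟨x, hx, hxx⟩ := hx'
    have h1 : ‖x' - x‖ ≤ ε := by
      rw [← dist_eq_norm]
      exact Metric.mem_closedBall.mp hxx
    have hza : ‖z - a‖ ≤ d + 3 * ε := by
      have e : z - a = (z - x') + (x' - x) + (x - a) := by ring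
      rw [e]
      exact norm_add₃_le.trans (by linarith [(h x hx).1])
    have hzb : ‖z - b‖ ≤ d + 3 * ε := by
      have e : z - b = (z - x') + (x' - x) + (x - b) := by ring
      rw [e]
      exact norm_add₃_le.trans (by linarith [(h x hx).2])
    have hzm : ‖z - (a + b) / 2‖ ≤ d + 3 * ε := by
      have e : z - (a + b) / 2 = ((z - a) + (z - b)) / 2 := by ring
      have e2 : ‖(2 : ℂ)‖ = 2 := by norm_num
      rw [e, norm_div, e2]
      linarith [norm_add_le (z - a) (z - b)]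
    have hsq : ‖(z - b) * q z‖ ^ 2 = ‖z - a‖ * ‖z - b‖ := by
      rw [← norm_pow, ← norm_mul]
      congr 1
      linear_combination (z - b) * hq z hz
    have hbq : ‖(z - b) * q z‖ ≤ d + 3 * ε := by
      rw [← sq_le_sq₀ (norm_nonneg _) (by positivity), hsq, sq]
      exact mul_le_mul hza hzb (norm_nonneg _) (by positivity)
    calc ‖g z‖ ≤ ‖z - (a + b) / 2‖ + ‖(z - b) * q z‖ := norm_sub_le _ _
      _ ≤ Λ := by
        rw [hΛ]
        linarith
  have hall := hMAXA _ g Λ ε hK' hΛ0 hε hgd hl0 hnear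
  have hnΛ : ‖(Λ : ℂ)‖ = Λ := by
    rw [Complex.norm_real, Real.norm_of_nonneg hΛ0.le]
  have key : ‖(a - b) ^ 2 / 8 / (Λ : ℂ)‖ ≤ FCC.gam (Metric.cthickening ε K) := by
    apply le_csSup (FCC.MAXP.bdd _ hK')
    refine ⟨fun z => g z / (Λ : ℂ), (a - b) ^ 2 / 8 / (Λ : ℂ), hgd.div_const _, ?_, ?_, ?_, rfl⟩
    · intro z hz
      rw [norm_div, hnΛ, div_le_one hΛ0]
      exact hall z hz
    · simpa using hl0.div_const (Λ : ℂ)
    · refine (hl1.div_const (Λ : ℂ)).congr fun z => ?_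
      rw [mul_div_assoc]
  refine le_trans (le_of_eq ?_) key
  have e8 : ‖(8 : ℂ)‖ = 8 := by norm_num
  rw [norm_div, norm_div, norm_pow, hnΛ, e8, ← hd, hΛ, div_div]
  congr 1
  ring

end Pool.Agent.NCP.CONT

namespace Pool.Agent.NCP

open MeasureTheory Set Filter Topology

/-- CONT: the capacity of a connected compact set. -/
theorem CONT_thm (hMAXA : Stmt_MAXA) (hROOT : Stmt_ROOT) (hGLIM : FCK.Stmt_GLIM) :
    Stmt_CONT := by
  intro K a b hK hc ha hb h
  have hd0 : 0 ≤ ‖a - b‖ := norm_nonneg _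
  apply le_of_forall_pos_le_add
  intro η hη
  have e : (⋂ n : ℕ, Metric.cthickening (η / ((n : ℝ) + 1)) K) = K := by
    apply Subset.antisymm
    · intro z hz
      rw [← hK.isClosed.closure_eq, Metric.closure_eq_iInter_cthickening]
      simp only [mem_iInter]
      intro δ hδ
      obtain ⟨n, hn⟩ := exists_nat_one_div_lt (div_pos hδ hη)
      refine Metric.cthickening_mono ?_ K (mem_iInter.mp hz n)
      have hn1 : (0 : ℝ) < (n : ℝ) + 1 := by positivity
      rw [div_lt_div_iff₀ hn1 hη] at hn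
      rw [div_le_iff₀ hn1]
      linarith
    · exact subset_iInter fun n => Metric.self_subset_cthickening K
  have hg : ‖a - b‖ ^ 2 / (16 * (‖a - b‖ + 3 * η)) ≤ FCC.gam K := by
    rw [← e]
    apply hGLIM (fun n : ℕ => Metric.cthickening (η / ((n : ℝ) + 1)) K)
    · intro n
      exact hK.cthickening
    · intro m n hmn
      apply Metric.cthickening_mono
      have hmn' : (m : ℝ) ≤ n := by exact_mod_cast hmn
      apply div_le_div_of_nonneg_left hη.le (by positivity)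
      linarith
    · intro n
      have hn1 : (1 : ℝ) ≤ (n : ℝ) + 1 := by
        have : (0 : ℝ) ≤ n := Nat.cast_nonneg n
        linarith
      have hpos : 0 < η / ((n : ℝ) + 1) := by positivity
      refine le_trans ?_ (CONT.cap hMAXA hROOT K a b hK hc ha hb h _ hpos)
      have hle : η / ((n : ℝ) + 1) ≤ η := div_le_self hη.le hn1
      apply div_le_div_of_nonneg_left (by positivity) (by positivity)
      linarith
  have h2 : ‖a - b‖ / 16 - 3 * η / 16 ≤ ‖a - b‖ ^ 2 / (16 * (‖a - b‖ + 3 * η)) := by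
    rw [le_div_iff₀ (by positivity)]
    nlinarith [sq_nonneg η]
  linarith

end Pool.Agent.NCP
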