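import Pool.Agent.NCP.Stmts2
import Pool.Agent.ANL.CHORD

/-!
# The content of a compact set and finite covers by balls (module COVC)
-/

set_option autoImplicit false

namespace Pool.Agent.NCP

open MeasureTheory Set Pool.Agent.ANL

theorem COVC_thm : Stmt_COVC := by
  intro E s hE hs
  classical
  unfold cont1 at hs
  have hne : {s : ℝ | ∃ U : ℕ → Set ℂ, E ⊆ ⋃ n, U n ∧ (∀ n, Bornology.IsBounded (U n)) ∧
      Summable (fun n => Metric.diam (U n)) ∧ s = ∑' n, Metric.diam (U n)}.Nonempty := by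
    refine ⟨_, fun n => if n = 0 then E else ∅, ?_, ?_, ?_, rfl⟩
    · intro x hx
      refine mem_iUnion.2 ⟨0, ?_⟩
      rw [if_pos rfl]
      exact hx
    · intro n
      show Bornology.IsBounded (if n = 0 then E else ∅)
      split_ifs
      · exact hE.isBounded
      · exact Bornology.isBounded_empty
    · refine summable_of_ne_finset_zero (s := {0}) ?_
      intro n hn
      show Metric.diam (if n = 0 then E else ∅) = 0
      rw [if_neg (by simpa using hn), Metric.diam_empty]
  obtain ⟨s0, ⟨U, hEU, hb, hsum, rfl⟩, hlt⟩ := exists_lt_of_csInf_lt hne hs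
  set η : ℝ := (s - ∑' n, Metric.diam (U n)) / 2 with hη
  have hη0 : 0 < η := by rw [hη]; linarith
  let r : ℕ → ℝ := fun n => Metric.diam (U n) + η * (1 / 2) ^ n
  let c : ℕ → ℂ := fun n => if h : (U n).Nonempty then h.some else 0
  have hr : ∀ n, Metric.diam (U n) < r n := by
    intro n
    have : 0 < η * (1 / 2 : ℝ) ^ n := by positivity
    show _ < Metric.diam (U n) + η * (1 / 2) ^ n
    linarith
  have hr0 : ∀ n, 0 ≤ r n := fun n => (Metric.diam_nonneg.trans (hr n).le)
  have hcov : E ⊆ ⋃ n, Metric.ball (c n) (r n) := by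
    intro x hx
    obtain ⟨n, hn⟩ := mem_iUnion.1 (hEU hx)
    refine mem_iUnion.2 ⟨n, ?_⟩
    have hU : (U n).Nonempty := ⟨x, hn⟩
    have hc : c n = hU.some := dif_pos hU
    rw [Metric.mem_ball, hc]
    exact (Metric.dist_le_diam_of_mem (hb n) hn hU.some_mem).trans_lt (hr n)
  obtain ⟨t, ht⟩ := hE.elim_finite_subcover (fun n => Metric.ball (c n) (r n))
    (fun n => Metric.isOpen_ball) hcov
  have hgeo : Summable fun n : ℕ => η * (1 / 2 : ℝ) ^ n := summable_geometric_two.mul_left η
  have hsr : Summable r := hsum.add hgeo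
  have htot : ∑' n, r n = s := by
    show ∑' n, (Metric.diam (U n) + η * (1 / 2) ^ n) = s
    rw [hsum.tsum_add hgeo, tsum_mul_left, tsum_geometric_two, hη]
    ring
  refine CHORD.cov_of (ι := t) (fun i => c i) (fun i => r i) (fun i => hr0 i) ?_ ?_
  · intro x hx
    obtain ⟨i, hi⟩ := mem_iUnion.1 (ht hx)
    obtain ⟨hit, hi⟩ := mem_iUnion.1 hi
    exact mem_iUnion.2 ⟨⟨i, hit⟩, Metric.ball_subset_closedBall hi⟩
  · rw [Finset.sum_coe_sort t r]
    calc ∑ i ∈ t, r i ≤ ∑' n, r n := hsr.sum_le_tsum t fun i _ => hr0 i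
      _ = s := htot

end Pool.Agent.NCP
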