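import Pool.Agent.NCP.Defs
import Pool.Agent.FCK.Stmts

/-!
# Analytic capacity of sets with few components: module statements (MP_98e313_an)

Theorem: if `K 1, …, K N` are compact sets with `γ(K i) ≥ θ diam (K i)` (`θ = 1/16` for connected
sets) and `E` is their union then `H¹_∞(E) ≤ C (√(1 + log N) + 1/θ) γ(E)`, and the same for `Fav(E)`.

Every statement below may use the earlier ones and those of `ANL`, `ANG`, `FCC`, `FCK` as hypotheses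
(all of `ANL`, `ANG`, `FCK` are proved: `ANL.TAIL_thm`, `FCK.GLIM_thm`, …).
-/

set_option autoImplicit false

namespace Pool.Agent.NCP

open MeasureTheory Set Pool.Agent.ANL

/-- MAXA: the maximum principle.
Proof. Let `z ∉ K`. If `z` is within `δ` of `K`, use the hypothesis. Otherwise let `K' = cthickening (δ / 2) K` (compact) and `R` so large that `‖f w‖ ≤ Λ` for `‖w‖ ≥ R`
(`f → 0`, `0 < Λ`), `K' ⊆ ball 0 R`, `‖z‖ < R`; `U = ball 0 R \ K'` is open and bounded, `z ∈ U`, its closure does not meet `K` (it is disjoint from `thickening (δ / 2) K`), so `f` is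
`DiffContOnCl` on `U`; a point of the frontier of `U` has norm `R`, or belongs to `K'` (then it is within `δ` of a point of `K`: `K` is compact). `Complex.norm_le_of_forall_mem_frontier_norm_le`.
See `FCC.MAXP.bound` in Pool/Agent/FCC/MAXP.lean, which is almost the same proof. -/
def Stmt_MAXA : Prop := ∀ (K : Set ℂ) (f : ℂ → ℂ) (Λ δ : ℝ), IsCompact K → 0 < Λ → 0 < δ →
  DifferentiableOn ℂ f Kᶜ → Filter.Tendsto f (Filter.cocompact ℂ) (nhds 0) →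
  (∀ z ∉ K, (∃ x ∈ K, ‖z - x‖ ≤ δ) → ‖f z‖ ≤ Λ) → ∀ z ∉ K, ‖f z‖ ≤ Λ

/-- ROOT: a holomorphic square root of `(z - a) / (z - b)`.
Proof. Let `V` be the complement of `cthickening ε K`: it is open and `ε < ‖z - x‖` for all `z ∈ V`, `x ∈ K`. For `x ∈ K` let `R x` be the assertion of the theorem for `x` instead of `b`. `R a`: `q = 1`.
If `R x` (by `q`), `x, y ∈ K`, `‖x - y‖ < ε`, then `R y`: `q z * ((z - x) / (z - y)) ^ (1 / 2 : ℂ)` (principal power): for `z ∈ V` the number `(z - x) / (z - y) = 1 + (y - x) / (z - y)` has distance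
`< 1` from `1`, so it has positive real part (`slitPlane`); it tends to `1` at infinity. Let `u`, `v` be the unions of the balls `ball x ε`, `x ∈ K` with `R x`, resp. `x ∈ K` without `R x`. They are
open and cover `K`; no point `y` of `K` is in both (`‖x - y‖ < ε`, `R x` gives `R y`, `‖y - x'‖ < ε` gives `R x'`). `a ∈ u`, so `v` does not meet `K` (`IsPreconnected`), and `R b`. -/
def Stmt_ROOT : Prop := ∀ (K : Set ℂ) (a b : ℂ) (ε : ℝ), IsPreconnected K → a ∈ K → b ∈ K →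
  0 < ε → ∃ q : ℂ → ℂ, DifferentiableOn ℂ q (Metric.cthickening ε K)ᶜ ∧
    (∀ z ∉ Metric.cthickening ε K, q z ^ 2 * (z - b) = z - a) ∧
    Filter.Tendsto q (Filter.cocompact ℂ) (nhds 1)

/-- CONT: the capacity of a connected set.
Proof. Hypotheses `Stmt_MAXA`, `Stmt_ROOT`, `FCK.Stmt_GLIM`. Let `d = ‖a - b‖ > 0`. For `ε > 0` let `K' = cthickening ε K`, `q` as in `ROOT`, `m = (a + b) / 2`, `g z = (z - m) - (z - b) q z` off `K'`.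
`g z * ((z - m) + (z - b) q z) = (z - m)² - (z - b)² q² = (z - m)² - (z - b)(z - a) = (a - b)² / 4`, and `((z - m) + (z - b) q z) / z → 2`: so `g → 0`, `z g z → (a - b)² / 8`. If `z ∉ K'` is within
`ε` of `K'`, it is within `3 ε` of a point of `K`, so `‖z - a‖, ‖z - b‖ ≤ d + 3 ε`, `‖z - m‖ ≤ d + 3 ε`, `‖(z - b) q z‖² = ‖z - a‖ ‖z - b‖`: `‖g z‖ ≤ 2 (d + 3 ε)`. By `MAXA` this holds off `K'`;
`g / (2 (d + 3 ε))` is admissible for `gam K'`: `gam K' ≥ d² / (16 (d + 3 ε))` (`FCC.MAXP.bdd` for `le_csSup`). For a given `η > 0`, all small `ε` give `≥ d / 16 - η`; `GLIM` for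
`K n = cthickening (ε₀ / (n + 1)) K` (intersection `K`, `K` is closed) gives `d / 16 - η ≤ gam K`. `d = 0`: `gam K ≥ 0` (`ANL.gam_nonneg` in ANL/Final.lean). -/
def Stmt_CONT : Prop := ∀ (K : Set ℂ) (a b : ℂ), IsCompact K → IsPreconnected K → a ∈ K →
  b ∈ K → (∀ u ∈ K, ‖u - a‖ ≤ ‖a - b‖ ∧ ‖u - b‖ ≤ ‖a - b‖) → ‖a - b‖ / 16 ≤ FCC.gam K

/-- FAR: decay of order two.
Proof. `k(ζ) = h(p + 1 / ζ)` for `ζ ≠ 0`, `k(0) = 0`, on `ball 0 (1 / r)`: `‖k‖ ≤ M` off `0`, `k(ζ) / ζ → 0` for `ζ → 0` (`(z - p) h z → 0`). So `k` is differentiable on the ball (removable singularity), with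
derivative `0` at `0`; `k₁ = dslope k 0` and `k₂ = dslope k₁ 0` are differentiable on the ball, `k₁ 0 = 0`, `k ζ = ζ² k₂ ζ`. For `‖ζ‖ ≤ ρ < 1 / r` the maximum principle on `ball 0 ρ` gives `‖k₂ ζ‖ ≤ M / ρ²`; `ρ → 1 / r`:
`‖k₂ ζ‖ ≤ M r²`. Put `ζ = 1 / (z - p)`. -/
def Stmt_FAR : Prop := ∀ (h : ℂ → ℂ) (p : ℂ) (r M : ℝ), 0 < r → 0 ≤ M →
  DifferentiableOn ℂ h {z | r < ‖z - p‖} → (∀ z, r < ‖z - p‖ → ‖h z‖ ≤ M) →
  Filter.Tendsto (fun z => z * h z) (Filter.cocompact ℂ) (nhds 0) →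
  ∀ z, r < ‖z - p‖ → ‖h z‖ ≤ M * r ^ 2 / ‖z - p‖ ^ 2

/-- DENS: a large density with bounded Cauchy transform.
Proof. Hypotheses `ANL.Stmt_TEST`, `ANL.Stmt_MASS`, `ANL.Stmt_MAXM`. This is contained in the proof of `ANL.core` (ANL/Final.lean: the part from the comment the density on, hM, hX): with `M = C₀ (1 + log N)`,
`B = √(192 M) + 8 ≤ (√(192 C₀) + 8) √(1 + log N)`. -/
def Stmt_DENS : Prop := ∃ C : ℝ, 0 < C ∧ ∀ (N : ℕ) (lab : ℂ → Fin N) (X : Finset ℂ) (m : ℂ → ℝ)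
  (ε : ℝ), 1 ≤ N → 0 < ε → Grow X m ε → OnG X lab (fun _ => 0) →
  ∃ w : ℂ → ℝ, (∀ x ∈ X, 0 ≤ w x ∧ w x ≤ m x) ∧ (∑ x ∈ X, m x) / 8 ≤ ∑ x ∈ X, w x ∧
    ∀ z, (∀ x ∈ X, ε < ‖z - x‖) →
      ‖∑ x ∈ X, (w x : ℂ) / (z - x)‖ ≤ C * √(1 + Real.log N)

/-- SELC: selection of separated sets, and comparison of the contents.
Proof. Let `d i = ‖p i - q i‖`. `I` from `CHORD.greedy` (ANL/CHORD.lean) for `{i | 0 < d i}`, `D = d`, `r i j := ‖p i - p j‖ ≤ 5 max (d i) (d j)`. Then `Sep I p d`, and for every `i` with `d i > 0` there is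
`j ∈ I` with `‖p i - p j‖ ≤ 5 d j`, `d i ≤ d j`, so `K i ⊆ closedBall (p j) (6 d j)`; if `d i = 0` then `K i ⊆ closedBall (p i) 0`. Let the balls `(c k, ρ k)` cover the segments `S j`, `j ∈ I`. Call `j ∈ I` large if
`d j ≤ 4 ρ k` for some ball `k` which meets `S j`: then `closedBall (p j) (6 d j) ⊆ closedBall (c k) (29 ρ k)`. If `j` is not large, then `d j ≤ ∑ 2 ρ k` over the balls which meet `S j` (`CHORD.length_le`), and
`‖c k - p j‖ ≤ ρ k + d j < 5/4 d j` for them; so a ball `k` meets `S j` for at most one `j` which is not large (`Sep`), and the sum of the `d j` over these `j` is at most `2 R`. Cover: `closedBall (c k) (29 ρ k)`,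
`closedBall (p j) (6 d j)` for the `j` not large, `closedBall (p i) 0` for all `i` (`CHORD.cov_of`); sum at most `29 R + 12 R`. -/
def Stmt_SELC : Prop := ∀ (N : ℕ) (K : Fin N → Set ℂ) (p q : Fin N → ℂ),
  (∀ i, K i ⊆ Metric.closedBall (p i) ‖p i - q i‖) →
  ∃ I : Finset (Fin N), Sep I p (fun i => ‖p i - q i‖) ∧
    ∀ R : ℝ, Cov (⋃ i ∈ I, segment ℝ (p i) (q i)) R → Cov (⋃ i, K i) (41 * R)

/-- ERR: most labels have a small error.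
Proof. Hypothesis `ANL.Stmt_TAIL`. `μ i = ms X m lab i`, `e i` the sum in the last line (over `j ∈ I`, `j ≠ i`). `∑_i μ i e i = ∑_j μ j d j ∑_{i ≠ j} μ i / ‖p i - p j‖²`. For `x ∈ X` with label `i ≠ j`:
`‖x - p j‖ ≤ ‖p i - p j‖ + d i ≤ 6/5 ‖p i - p j‖` and `‖x - p j‖ ≥ ‖p i - p j‖ - d i ≥ 4/5 ‖p i - p j‖ ≥ 4 d j`; so `∑_{i ≠ j} μ i / ‖p i - p j‖² ≤ 36/25 ∑ m x / ‖x - p j‖²` over `x ∈ X` with
`4 d j ≤ ‖x - p j‖`, which is at most `36/25 · 4 / (4 d j)` by `TAIL`. Hence `∑_i μ i e i ≤ 36/25 ∑ μ j`. `J = {i ∈ I | e i ≤ 3}`: the labels outside `J` have mass at most `12/25 ∑ μ j`. The last sum decreases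
if `I` is replaced by `J`. -/
def Stmt_ERR : Prop := ∀ (N : ℕ) (I : Finset (Fin N)) (p : Fin N → ℂ) (d : Fin N → ℝ)
  (X : Finset ℂ) (m : ℂ → ℝ) (lab : ℂ → Fin N) (ε : ℝ), 0 < ε → Grow X m ε → Sep I p d →
  (∀ i ∈ I, ε ≤ d i) → Lab I p d X lab →
  ∃ J ⊆ I, (∑ x ∈ X, m x) / 2 ≤ ∑ x ∈ X.filter (fun x => lab x ∈ J), m x ∧
    ∀ i ∈ J, ∑ j ∈ J.erase i, ms X m lab j * d j / ‖p i - p j‖ ^ 2 ≤ 3

/-- HARM: the potential of the other labels near a label.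
Proof. The sum is a holomorphic function of `z` in a neighbourhood of `closedBall (p i) (2 d i)`: `‖z - x‖ ≥ ‖p i - p j‖ - 2 d i - d j > 0` for `x` with label `j ≠ i`. By the maximum principle let
`‖z - p i‖ = 2 d i`. Then `‖z - x‖ ≥ d i > ε` for `x` with label `i`, `‖z - x‖ > 2 max (d i) (d j) > ε` for label `j ≠ i`; the sum over all `x ∈ X` is at most `B`, and the part with label `i` is at most `ms X w lab i / d i ≤ 1`. -/
def Stmt_HARM : Prop := ∀ (N : ℕ) (J : Finset (Fin N)) (p : Fin N → ℂ) (d : Fin N → ℝ)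
  (X : Finset ℂ) (w : ℂ → ℝ) (lab : ℂ → Fin N) (ε B : ℝ), Sep J p d → (∀ i ∈ J, ε < d i) →
  Lab J p d X lab → (∀ x ∈ X, 0 ≤ w x) → (∀ i ∈ J, ms X w lab i ≤ d i) →
  (∀ z, (∀ x ∈ X, ε < ‖z - x‖) → ‖∑ x ∈ X, (w x : ℂ) / (z - x)‖ ≤ B) →
  ∀ i ∈ J, ∀ z, ‖z - p i‖ ≤ 2 * d i → ‖∑ j ∈ J.erase i, pot X w lab j z‖ ≤ B + 1

/-- GLUE: functions on separated sets.
Proof. Hypotheses `Stmt_MAXA`, `Stmt_FAR`, `Stmt_HARM`. `W j = ms X w lab j ≥ 0`, `F = ∑_{j ∈ J} f j`: holomorphic off `⋃ K j`, `F → 0`, `z F → ∑ W j = ∑ w x`. Claim: `‖F z‖ ≤ B + 200 / θ` for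
`z ∉ ⋃ K j`, `‖z - p i‖ ≤ 2 d i`, `i ∈ J` (`K i ⊆ closedBall (p i) (d i)`, so this contains a neighbourhood of `⋃ K j`: `δ = min d i`); then `MAXA` and the definition of `gam`. For `j ≠ i`:
`h = f j - pot X w lab j` is holomorphic on `{3/2 d j < ‖z - p j‖}`, there `‖h‖ ≤ W j / (θ d j) + W j / (d j / 2) ≤ 3 W j / (θ d j)`, `z h → W j - W j = 0`; so `‖h z‖ ≤ 27/4 W j d j / (θ ‖z - p j‖²)` (`FAR`).
For `‖z - p i‖ ≤ 2 d i`: `‖z - p j‖ ≥ ‖p i - p j‖ - 2 d i ≥ 3/5 ‖p i - p j‖ ≥ 3 d j`, so `‖h z‖ ≤ 75/4 W j d j / (θ ‖p i - p j‖²)`, sum over `j` at most `57 / θ`. `‖f i z‖ ≤ W i / (θ d i) ≤ 1 / θ`. `HARM` for the sum of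
the potentials of the `j ≠ i`. Together `1 / θ + B + 1 + 57 / θ ≤ B + 200 / θ`. (If `J` is empty all is `0`.) -/
def Stmt_GLUE : Prop := ∀ (N : ℕ) (J : Finset (Fin N)) (K : Fin N → Set ℂ) (p : Fin N → ℂ)
  (d : Fin N → ℝ) (f : Fin N → ℂ → ℂ) (X : Finset ℂ) (w : ℂ → ℝ) (lab : ℂ → Fin N) (ε B θ : ℝ),
  Sep J p d → 0 < ε → (∀ i ∈ J, ε < d i) → Lab J p d X lab → (∀ x ∈ X, 0 ≤ w x) →
  (∀ i ∈ J, ms X w lab i ≤ d i) →
  (∀ z, (∀ x ∈ X, ε < ‖z - x‖) → ‖∑ x ∈ X, (w x : ℂ) / (z - x)‖ ≤ B) →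
  (∀ i ∈ J, ∑ j ∈ J.erase i, ms X w lab j * d j / ‖p i - p j‖ ^ 2 ≤ 3) →
  0 < θ → θ ≤ 1 → 0 ≤ B → (∀ i, IsCompact (K i)) →
  (∀ i ∈ J, K i ⊆ Metric.closedBall (p i) (d i)) → (∀ i ∈ J, Adm (K i) (f i) (ms X w lab i)) →
  (∀ i ∈ J, ∀ z ∉ K i, ‖f i z‖ ≤ ms X w lab i / (θ * d i)) →
  (∑ x ∈ X, w x) / (B + 200 / θ) ≤ FCC.gam (⋃ i ∈ J, K i)

/-- NCPM: the theorem for sets of large capacity.
Proof. Hypotheses `Stmt_DENS`, `Stmt_SELC`, `Stmt_ERR`, `Stmt_GLUE`, `ANL.Stmt_FROST`, `ANL.Stmt_FAVC`. -/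
def Stmt_NCPM : Prop := ∃ C : ℝ, 0 < C ∧ ∀ (N : ℕ), 1 ≤ N → ∀ (K : Fin N → Set ℂ) (θ : ℝ),
  (∀ i, IsCompact (K i)) → 0 < θ → θ ≤ 1 →
  (∀ i, ∀ x ∈ K i, ∀ y ∈ K i, θ * ‖x - y‖ ≤ FCC.gam (K i)) →
  cont1 (⋃ i, K i) ≤ C * (√(1 + Real.log N) + 1 / θ) * FCC.gam (⋃ i, K i) ∧
  FCC.Fav (⋃ i, K i) ≤ C * (√(1 + Real.log N) + 1 / θ) * FCC.gam (⋃ i, K i)

end Pool.Agent.NCP
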