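import Pool.Agent.NCP.Stmts

/-!
# NCP_DENS: a large density with bounded Cauchy transform (MP_98e313_an)
-/

set_option autoImplicit false

namespace Pool.Agent.NCP

open MeasureTheory Set Pool.Agent.ANL

/-- A submeasure has linear growth. -/
lemma DENS.grow_sub {X : Finset ℂ} {m w : ℂ → ℝ} {ε : ℝ} (h : Grow X m ε)
    (h0 : ∀ x ∈ X, 0 ≤ w x) (h1 : ∀ x ∈ X, w x ≤ m x) : Grow X w ε := by
  refine ⟨h0, fun z r hr => le_trans ?_ (h.2 z r hr)⟩
  exact Finset.sum_le_sum fun x hx => h1 x (Finset.mem_filter.mp hx).1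

/-- NCP_DENS. -/
theorem DENS_thm (hT : ANL.Stmt_TEST) (hM : ANL.Stmt_MASS) (hX : ANL.Stmt_MAXM) :
    Stmt_DENS := by
  obtain ⟨C0, hC0, hT⟩ := hT
  refine ⟨√(192 * C0) + 8, by positivity, ?_⟩
  intro N lab X m ε hN hεpos hgrow hOn
  have hlog : 0 ≤ Real.log N := Real.log_natCast_nonneg N
  set M : ℝ := C0 * (1 + Real.log N) with hMdef
  have hMpos : 0 < M := by positivity
  set B : ℝ := √(192 * M) + 8 with hB
  have hBle : B ≤ (√(192 * C0) + 8) * √(1 + Real.log N) := by
    have h1 : √(192 * M) = √(192 * C0) * √(1 + Real.log N) := by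
      rw [hMdef, ← mul_assoc, Real.sqrt_mul (by positivity)]
    have h2 : 1 ≤ √(1 + Real.log N) := by
      rw [Real.one_le_sqrt]
      linarith
    rw [hB, h1]
    nlinarith [Real.sqrt_nonneg (192 * C0)]
  -- the density
  have hker : ∀ z : ℂ, ker ε (-z) = - ker ε z := by
    intro z
    unfold ker
    rw [norm_neg, map_neg, neg_div]
  obtain ⟨h, hh, hhm, hhC⟩ := hM X (fun i => m i) (fun i j => ker ε ((i : ℂ) - j)) M hMpos
    (fun i => hgrow.1 i i.2) (fun i j => by
      rw [← hker, neg_sub]) (by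
      intro g hg
      classical
      set w : ℂ → ℝ := fun x => if hx : x ∈ X then m x * g ⟨x, hx⟩ else 0 with hw
      have hw0 : ∀ x ∈ X, 0 ≤ w x := by
        intro x hx
        simp only [hw, dif_pos hx]
        exact mul_nonneg (hgrow.1 x hx) (hg _).1
      have hw1 : ∀ x ∈ X, w x ≤ m x := by
        intro x hx
        simp only [hw, dif_pos hx]
        exact mul_le_of_le_one_right (hgrow.1 x hx) (hg _).2
      have := hT N lab (fun _ => 0) X w ε hN hεpos (DENS.grow_sub hgrow hw0 hw1) hOn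
      have e1 : ∀ i : X, w i = m i * g i := by
        intro i
        simp [hw]
      have e2 : ∑ x ∈ X, w x = ∑ i : X, m i * g i := by
        rw [← Finset.sum_coe_sort X w]
        exact Finset.sum_congr rfl fun i _ => e1 i
      have e3 : ∀ x : ℂ, Cw X w ε x = ∑ j : X, ((m j * g j : ℝ) : ℂ) * ker ε (x - j) := by
        intro x
        unfold Cw
        rw [← Finset.sum_coe_sort X (fun y => (w y : ℂ) * ker ε (x - y))]
        exact Finset.sum_congr rfl fun i _ => by rw [e1 i]
      rw [e2, ← Finset.sum_coe_sort X (fun x => w x * ‖Cw X w ε x‖ ^ 2)] at this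
      refine le_trans (le_of_eq ?_) this
      refine Finset.sum_congr rfl fun i _ => ?_
      rw [e1 i, e3])
  classical
  set w : ℂ → ℝ := fun x => if hx : x ∈ X then m x * h ⟨x, hx⟩ else 0 with hw
  have hw0 : ∀ x ∈ X, 0 ≤ w x := by
    intro x hx
    simp only [hw, dif_pos hx]
    exact mul_nonneg (hgrow.1 x hx) (hh _).1
  have hw1 : ∀ x ∈ X, w x ≤ m x := by
    intro x hx
    simp only [hw, dif_pos hx]
    exact mul_le_of_le_one_right (hgrow.1 x hx) ((hh _).2.trans (by norm_num))
  have e1 : ∀ i : X, w i = m i * h i := by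
    intro i
    simp [hw]
  have e2 : ∑ x ∈ X, w x = ∑ i : X, m i * h i := by
    rw [← Finset.sum_coe_sort X w]
    exact Finset.sum_congr rfl fun i _ => e1 i
  have e3 : ∀ x : ℂ, Cw X w ε x = ∑ j : X, ((m j * h j : ℝ) : ℂ) * ker ε (x - j) := by
    intro x
    unfold Cw
    rw [← Finset.sum_coe_sort X (fun y => (w y : ℂ) * ker ε (x - y))]
    exact Finset.sum_congr rfl fun i _ => by rw [e1 i]
  refine ⟨w, fun x hx => ⟨hw0 x hx, hw1 x hx⟩, ?_, ?_⟩
  · rw [e2]
    refine le_trans (le_of_eq ?_) hhm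
    rw [Finset.sum_coe_sort X m]
  · intro z hz
    refine le_trans ?_ hBle
    apply hX X w ε (√(192 * M)) hεpos (Real.sqrt_nonneg _) (DENS.grow_sub hgrow hw0 hw1)
    · intro x hx hwx
      have hhx : 0 < h ⟨x, hx⟩ := by
        simp only [hw, dif_pos hx] at hwx
        by_contra hcon
        have : h ⟨x, hx⟩ = 0 := le_antisymm (not_lt.mp hcon) (hh _).1
        rw [this, mul_zero] at hwx
        exact lt_irrefl _ hwx
      have := hhC ⟨x, hx⟩ hhx
      rw [e3]
      exact Real.le_sqrt_of_sq_le this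
    · exact hz

end Pool.Agent.NCP
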