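import Pool.Agent.ANL.Stmts

/-!
# Analytic capacity of sets with few components: definitions (MP_98e313_an)
-/

set_option autoImplicit false

namespace Pool.Agent.NCP

open MeasureTheory Set

/-- `f` is holomorphic off `K`, tends to `0` at infinity, and `z f(z)` tends to `a`. -/
structure Adm (K : Set ℂ) (f : ℂ → ℂ) (a : ℂ) : Prop where
  diff : DifferentiableOn ℂ f Kᶜ
  lim0 : Filter.Tendsto f (Filter.cocompact ℂ) (nhds 0)
  lim1 : Filter.Tendsto (fun z => z * f z) (Filter.cocompact ℂ) (nhds a)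

/-- The balls with centres `p i` and radii `5 d i` contain no other centre. -/
structure Sep {N : ℕ} (I : Finset (Fin N)) (p : Fin N → ℂ) (d : Fin N → ℝ) : Prop where
  pos : ∀ i ∈ I, 0 < d i
  sep : ∀ i ∈ I, ∀ j ∈ I, i ≠ j → 5 * d i < ‖p i - p j‖ ∧ 5 * d j < ‖p i - p j‖

/-- The points of `X` with label `i` are in the ball of centre `p i` and radius `d i`, `i ∈ I`. -/
def Lab {N : ℕ} (I : Finset (Fin N)) (p : Fin N → ℂ) (d : Fin N → ℝ) (X : Finset ℂ)
    (lab : ℂ → Fin N) : Prop := ∀ x ∈ X, lab x ∈ I ∧ ‖x - p (lab x)‖ ≤ d (lab x)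

/-- The mass of the label `i`. -/
noncomputable def ms {N : ℕ} (X : Finset ℂ) (m : ℂ → ℝ) (lab : ℂ → Fin N) (i : Fin N) : ℝ :=
  ∑ x ∈ X.filter (fun x => lab x = i), m x

/-- The potential of the label `i`. -/
noncomputable def pot {N : ℕ} (X : Finset ℂ) (w : ℂ → ℝ) (lab : ℂ → Fin N) (i : Fin N) (z : ℂ) :
    ℂ := ∑ x ∈ X.filter (fun x => lab x = i), (w x : ℂ) / (z - x)

end Pool.Agent.NCP
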