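import Mathlib
import Pool.Agent.NCP.Stmts

/-!
# Module ERR: most labels have a small error
-/

set_option autoImplicit false

namespace Pool.Agent.NCP

open MeasureTheory Set Pool.Agent.ANL

namespace ERR

theorem ms_nonneg {N : ℕ} {X : Finset ℂ} {m : ℂ → ℝ} (lab : ℂ → Fin N)
    (hm : ∀ x ∈ X, 0 ≤ m x) (i : Fin N) : 0 ≤ ms X m lab i :=
  Finset.sum_nonneg fun x hx => hm x (Finset.mem_filter.1 hx).1

/-- the error of the other labels, summed over the base points -/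
theorem key (hTAIL : ANL.Stmt_TAIL) {N : ℕ} {I : Finset (Fin N)} {p : Fin N → ℂ}
    {d : Fin N → ℝ} {X : Finset ℂ} {m : ℂ → ℝ} {lab : ℂ → Fin N} {ε : ℝ} (hε : 0 < ε)
    (hG : Grow X m ε) (hS : Sep I p d) (hd : ∀ i ∈ I, ε ≤ d i) (hL : Lab I p d X lab)
    (j : Fin N) (hj : j ∈ I) :
    d j * ∑ i ∈ I.erase j, ms X m lab i / ‖p i - p j‖ ^ 2 ≤ 36 / 25 := by
  classical
  have hdj := hS.pos j hj
  have h1 : ∀ i ∈ I.erase j, ms X m lab i / ‖p i - p j‖ ^ 2 ≤
      ∑ x ∈ (X.filter (fun x => 4 * d j ≤ ‖x - p j‖)).filter (fun x => lab x = i),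
        36 / 25 * (m x / ‖x - p j‖ ^ 2) := by
    intro i hi
    obtain ⟨hij, hiI⟩ := Finset.mem_erase.1 hi
    obtain ⟨s1, s2⟩ := hS.sep i hiI j hj hij
    unfold ms
    rw [Finset.sum_div]
    have hb : ∀ x ∈ X.filter (fun x => lab x = i),
        ‖x - p j‖ ≤ 6 / 5 * ‖p i - p j‖ ∧ 4 * d j ≤ ‖x - p j‖ := by
      intro x hx
      obtain ⟨hxX, hxi⟩ := Finset.mem_filter.1 hx
      have h2 := (hL x hxX).2
      rw [hxi] at h2
      have h3 : ‖x - p j‖ ≤ ‖x - p i‖ + ‖p i - p j‖ := by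
        have := norm_add_le (x - p i) (p i - p j)
        rwa [sub_add_sub_cancel] at this
      have h4 : ‖p i - p j‖ ≤ ‖x - p i‖ + ‖x - p j‖ := by
        have := norm_sub_le (x - p j) (x - p i)
        rw [sub_sub_sub_cancel_left] at this
        linarith
      constructor <;> linarith
    refine le_trans (Finset.sum_le_sum fun x hx => ?_)
      (Finset.sum_le_sum_of_subset_of_nonneg (fun x hx => ?_) fun x hx _ => ?_)
    · obtain ⟨b1, b2⟩ := hb x hx
      have hm0 := hG.1 x (Finset.mem_filter.1 hx).1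
      have hpos : 0 < ‖x - p j‖ := by linarith
      have hpos2 : 0 < ‖p i - p j‖ := by linarith
      rw [← mul_div_assoc, div_le_div_iff₀ (by positivity) (by positivity)]
      have h5 : ‖x - p j‖ ^ 2 ≤ 36 / 25 * ‖p i - p j‖ ^ 2 := by
        calc ‖x - p j‖ ^ 2 ≤ (6 / 5 * ‖p i - p j‖) ^ 2 := pow_le_pow_left₀ hpos.le b1 2
          _ = 36 / 25 * ‖p i - p j‖ ^ 2 := by ring
      calc m x * ‖x - p j‖ ^ 2 ≤ m x * (36 / 25 * ‖p i - p j‖ ^ 2) := by gcongr
        _ = _ := by ring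
    · rw [Finset.mem_filter, Finset.mem_filter]
      exact ⟨⟨(Finset.mem_filter.1 hx).1, (hb x hx).2⟩, (Finset.mem_filter.1 hx).2⟩
    · have hm0 := hG.1 x (Finset.mem_filter.1 (Finset.mem_filter.1 hx).1).1
      positivity
  have h2 : ∑ i ∈ I.erase j, ms X m lab i / ‖p i - p j‖ ^ 2 ≤
      ∑ x ∈ X.filter (fun x => 4 * d j ≤ ‖x - p j‖), 36 / 25 * (m x / ‖x - p j‖ ^ 2) := by
    refine (Finset.sum_le_sum h1).trans ?_
    refine (Finset.sum_le_sum_of_subset_of_nonneg (Finset.erase_subset j I)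
      fun i _ _ => Finset.sum_nonneg fun x hx => ?_).trans (le_of_eq ?_)
    · have hm0 := hG.1 x (Finset.mem_filter.1 (Finset.mem_filter.1 hx).1).1
      positivity
    · exact Finset.sum_fiberwise_of_maps_to
        (fun x hx => (hL x (Finset.mem_filter.1 hx).1).1) _
  rw [← Finset.mul_sum] at h2
  have h3 := hTAIL X m ε hε hG (p j) (4 * d j) (by have := hd j hj; linarith)
  have h4 : ∑ i ∈ I.erase j, ms X m lab i / ‖p i - p j‖ ^ 2 ≤ 36 / 25 * (4 / (4 * d j)) :=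
    h2.trans (mul_le_mul_of_nonneg_left h3 (by norm_num))
  calc d j * ∑ i ∈ I.erase j, ms X m lab i / ‖p i - p j‖ ^ 2 ≤
      d j * (36 / 25 * (4 / (4 * d j))) := mul_le_mul_of_nonneg_left h4 hdj.le
    _ = 36 / 25 := by
      field_simp

end ERR

/-- ERR. -/
theorem ERR_thm (hTAIL : ANL.Stmt_TAIL) : Stmt_ERR := by
  classical
  intro N I p d X m lab ε hε hG hS hd hL
  obtain ⟨μ, hμ⟩ : ∃ μ, μ = ms X m lab := ⟨_, rfl⟩
  have hμ0 : ∀ i, 0 ≤ μ i := fun i => by rw [hμ]; exact ERR.ms_nonneg lab hG.1 i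
  have hM : ∑ i ∈ I, μ i = ∑ x ∈ X, m x := by
    rw [hμ]
    exact Finset.sum_fiberwise_of_maps_to (fun x hx => (hL x hx).1) m
  obtain ⟨e, he⟩ : ∃ e : Fin N → ℝ,
      e = fun i => ∑ j ∈ I.erase i, μ j * d j / ‖p i - p j‖ ^ 2 := ⟨_, rfl⟩
  have hterm : ∀ i, ∀ j ∈ I, 0 ≤ μ j * d j / ‖p i - p j‖ ^ 2 := fun i j hj => by
    have h1 := hμ0 j
    have h2 := hS.pos j hj
    positivity
  have he0 : ∀ i, 0 ≤ e i := fun i => by
    rw [he]
    exact Finset.sum_nonneg fun j hj => hterm i j (Finset.mem_of_mem_erase hj)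
  -- the sum of all errors
  have hswap : ∑ i ∈ I, μ i * e i =
      ∑ j ∈ I, μ j * (d j * ∑ i ∈ I.erase j, μ i / ‖p i - p j‖ ^ 2) := by
    have e1 : ∀ i ∈ I, μ i * e i =
        ∑ j ∈ I, if j ≠ i then μ i * (μ j * d j / ‖p i - p j‖ ^ 2) else 0 := by
      intro i _
      rw [he, ← Finset.sum_filter, Finset.mul_sum]
      refine Finset.sum_congr ?_ fun j _ => rfl
      ext j
      rw [Finset.mem_erase, Finset.mem_filter, and_comm]
    have e2 : ∀ j ∈ I, μ j * (d j * ∑ i ∈ I.erase j, μ i / ‖p i - p j‖ ^ 2) =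
        ∑ i ∈ I, if j ≠ i then μ i * (μ j * d j / ‖p i - p j‖ ^ 2) else 0 := by
      intro j _
      rw [← Finset.sum_filter, Finset.mul_sum, Finset.mul_sum]
      refine Finset.sum_congr ?_ fun i _ => by ring
      ext i
      rw [Finset.mem_erase, Finset.mem_filter, and_comm, ne_comm]
    rw [Finset.sum_congr rfl e1, Finset.sum_comm, Finset.sum_congr rfl e2]
  have hsum : ∑ i ∈ I, μ i * e i ≤ 36 / 25 * ∑ x ∈ X, m x := by
    rw [hswap, ← hM, Finset.mul_sum]
    refine Finset.sum_le_sum fun j hj => ?_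
    have h1 := ERR.key hTAIL hε hG hS hd hL j hj
    rw [← hμ] at h1
    calc μ j * (d j * ∑ i ∈ I.erase j, μ i / ‖p i - p j‖ ^ 2) ≤ μ j * (36 / 25) :=
          mul_le_mul_of_nonneg_left h1 (hμ0 j)
      _ = 36 / 25 * μ j := mul_comm _ _
  -- the good labels
  have hmass : ∑ x ∈ X.filter (fun x => lab x ∈ I.filter (fun i => e i ≤ 3)), m x =
      ∑ i ∈ I.filter (fun i => e i ≤ 3), μ i := by
    rw [← Finset.sum_fiberwise_of_maps_to (t := I.filter (fun i => e i ≤ 3)) (g := lab)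
      (fun x hx => (Finset.mem_filter.1 hx).2) m]
    refine Finset.sum_congr rfl fun i hi => ?_
    rw [hμ]
    unfold ms
    refine Finset.sum_congr ?_ fun x _ => rfl
    ext x
    simp only [Finset.mem_filter]
    constructor
    · rintro ⟨⟨h1, _⟩, h2⟩
      exact ⟨h1, h2⟩
    · rintro ⟨h1, h2⟩
      refine ⟨⟨h1, ?_⟩, h2⟩
      rw [h2]
      exact Finset.mem_filter.1 hi
  refine ⟨I.filter (fun i => e i ≤ 3), Finset.filter_subset _ _, ?_, fun i hi => ?_⟩
  · rw [hmass]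
    have h1 : ∑ i ∈ I.filter (fun i => e i ≤ 3), μ i + ∑ i ∈ I.filter (fun i => ¬ e i ≤ 3), μ i =
        ∑ i ∈ I, μ i := Finset.sum_filter_add_sum_filter_not I _ _
    have h2 : 3 * ∑ i ∈ I.filter (fun i => ¬ e i ≤ 3), μ i ≤ ∑ i ∈ I, μ i * e i := by
      rw [Finset.mul_sum]
      refine (Finset.sum_le_sum fun i hi => ?_).trans
        (Finset.sum_le_sum_of_subset_of_nonneg (Finset.filter_subset (fun i => ¬ e i ≤ 3) I)
          fun i _ _ => mul_nonneg (hμ0 i) (he0 i))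
      have h3 := (Finset.mem_filter.1 hi).2
      have h4 := hμ0 i
      rw [not_le] at h3
      nlinarith
    have h5 : 0 ≤ ∑ x ∈ X, m x := Finset.sum_nonneg hG.1
    rw [hM] at h1
    linarith
  · obtain ⟨hiI, hi3⟩ := Finset.mem_filter.1 hi
    refine le_trans ?_ hi3
    rw [he, ← hμ]
    refine Finset.sum_le_sum_of_subset_of_nonneg
      (Finset.erase_subset_erase i (Finset.filter_subset _ _)) fun j hj _ =>
        hterm i j (Finset.mem_of_mem_erase hj)

end Pool.Agent.NCP
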