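import Pool.Agent.NCP.Stmts

/-!
# Module FAR: decay of order two
-/

set_option autoImplicit false

namespace Pool.Agent.NCP

open MeasureTheory Set Filter Topology Bornology Metric

namespace FAR

/-- Schwarz lemma of order two. -/
theorem schwarz {k : ℂ → ℂ} {R M : ℝ} (hR : 0 < R) (hd : DifferentiableOn ℂ k (ball 0 R))
    (h0 : k 0 = 0) (h1 : deriv k 0 = 0) (hb : ∀ z ∈ ball (0 : ℂ) R, ‖k z‖ ≤ M) {z : ℂ}
    (hz : z ∈ ball (0 : ℂ) R) : ‖k z‖ ≤ M / R / R * ‖z‖ ^ 2 := by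
  have hnh : ball (0 : ℂ) R ∈ 𝓝 (0 : ℂ) := ball_mem_nhds _ hR
  have hd1 : DifferentiableOn ℂ (dslope k 0) (ball 0 R) :=
    (Complex.differentiableOn_dslope hnh).2 hd
  have hb1 : ∀ w ∈ ball (0 : ℂ) R, ‖dslope k 0 w‖ ≤ M / R := by
    intro w hw
    refine Complex.norm_dslope_le_div_of_mapsTo_ball hd ?_ hw
    intro y hy
    rw [h0, mem_closedBall_zero_iff]
    exact hb y hy
  have h10 : dslope k 0 0 = 0 := by rw [dslope_same, h1]
  have hb2 : ‖dslope (dslope k 0) 0 z‖ ≤ M / R / R := by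
    refine Complex.norm_dslope_le_div_of_mapsTo_ball hd1 ?_ hz
    intro y hy
    rw [h10, mem_closedBall_zero_iff]
    exact hb1 y hy
  have e1 : k z = z ^ 2 * dslope (dslope k 0) 0 z := by
    have e2 := sub_smul_dslope k 0 z
    have e3 := sub_smul_dslope (dslope k 0) 0 z
    rw [h0, sub_zero, sub_zero, smul_eq_mul] at e2
    rw [h10, sub_zero, sub_zero, smul_eq_mul] at e3
    rw [← e2, ← e3]
    ring
  rw [e1, norm_mul, norm_pow, mul_comm]
  exact mul_le_mul_of_nonneg_right hb2 (by positivity)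

end FAR

theorem FAR_thm : Stmt_FAR := by
  intro h p r M hr hM hd hb hlim z hz
  have hlim' : Tendsto (fun z => z * h z) (cobounded ℂ) (𝓝 0) := by
    rw [Metric.cobounded_eq_cocompact]
    exact hlim
  have hlim0 : Tendsto h (cobounded ℂ) (𝓝 0) := by
    have h1 : Tendsto (fun z : ℂ => z⁻¹ * (z * h z)) (cobounded ℂ) (𝓝 (0 * 0)) :=
      tendsto_inv₀_cobounded.mul hlim'
    rw [mul_zero] at h1
    refine h1.congr' ?_
    have h2 : ∀ᶠ z : ℂ in cobounded ℂ, z ≠ 0 := by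
      have h3 : ∀ᶠ z : ℂ in cobounded ℂ, (0 : ℝ) < ‖z‖ :=
        tendsto_norm_cobounded_atTop.eventually (eventually_gt_atTop 0)
      exact h3.mono fun z hz => norm_pos_iff.1 hz
    filter_upwards [h2] with z hz
    rw [inv_mul_cancel_left₀ hz]
  have hlimp : Tendsto (fun z => (z - p) * h z) (cobounded ℂ) (𝓝 0) := by
    have h1 : Tendsto (fun z : ℂ => z * h z - p * h z) (cobounded ℂ) (𝓝 (0 - p * 0)) :=
      hlim'.sub (hlim0.const_mul p)
    rw [mul_zero, sub_zero] at h1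
    exact h1.congr fun z => by ring
  have hinv : Tendsto (fun ζ : ℂ => p + ζ⁻¹) (𝓝[≠] 0) (cobounded ℂ) :=
    (tendsto_const_add_cobounded p).comp tendsto_inv₀_nhdsNE_zero
  obtain ⟨k, hk⟩ : ∃ k : ℂ → ℂ, k = fun ζ => if ζ = 0 then 0 else h (p + ζ⁻¹) := ⟨_, rfl⟩
  have k0 : k 0 = 0 := by rw [hk]; simp
  have kn : ∀ ζ, ζ ≠ 0 → k ζ = h (p + ζ⁻¹) := by
    intro ζ hζ
    rw [hk]
    simp only [if_neg hζ]
  have hR : 0 < r⁻¹ := inv_pos.2 hr
  have hin : ∀ ζ ∈ ball (0 : ℂ) r⁻¹, ζ ≠ 0 → r < ‖p + ζ⁻¹ - p‖ := by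
    intro ζ hζ h0
    rw [mem_ball_zero_iff] at hζ
    rw [add_sub_cancel_left, norm_inv]
    rwa [lt_inv_comm₀ hr (norm_pos_iff.2 h0)]
  have hopen : IsOpen {z : ℂ | r < ‖z - p‖} :=
    isOpen_lt continuous_const (continuous_id.sub continuous_const).norm
  have hcont : ContinuousAt k 0 := by
    rw [continuousAt_iff_punctured_nhds, k0]
    refine (hlim0.comp hinv).congr' ?_
    filter_upwards [self_mem_nhdsWithin] with ζ hζ
    exact (kn ζ hζ).symm
  have hdk : DifferentiableOn ℂ k (ball 0 r⁻¹) := by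
    rw [← Complex.differentiableOn_compl_singleton_and_continuousAt_iff (ball_mem_nhds 0 hR)]
    refine ⟨?_, hcont⟩
    intro ζ hζ
    have hζ0 : ζ ≠ 0 := hζ.2
    have h1 : DifferentiableAt ℂ (fun ζ : ℂ => h (p + ζ⁻¹)) ζ := by
      have h2 : DifferentiableAt ℂ h (p + ζ⁻¹) :=
        (hd _ (hin ζ hζ.1 hζ0)).differentiableAt (hopen.mem_nhds (hin ζ hζ.1 hζ0))
      exact DifferentiableAt.comp ζ h2 ((differentiableAt_const p).add (differentiableAt_inv hζ0))
    refine (h1.congr_of_eventuallyEq ?_).differentiableWithinAt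
    filter_upwards [isOpen_ne.mem_nhds hζ0] with y hy
    exact kn y hy
  have hbk : ∀ ζ ∈ ball (0 : ℂ) r⁻¹, ‖k ζ‖ ≤ M := by
    intro ζ hζ
    by_cases h0 : ζ = 0
    · rw [h0, k0, norm_zero]
      exact hM
    · rw [kn ζ h0]
      exact hb _ (hin ζ hζ h0)
  have hder : deriv k 0 = 0 := by
    have h1 : HasDerivAt k (deriv k 0) 0 :=
      ((hdk 0 (mem_ball_self hR)).differentiableAt (ball_mem_nhds 0 hR)).hasDerivAt
    rw [hasDerivAt_iff_tendsto_slope] at h1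
    have h2 : Tendsto (slope k 0) (𝓝[≠] 0) (𝓝 0) := by
      refine (hlimp.comp hinv).congr' ?_
      filter_upwards [self_mem_nhdsWithin] with ζ hζ
      have hζ0 : ζ ≠ 0 := hζ
      rw [slope_def_field, k0, kn ζ hζ0, sub_zero, sub_zero]
      simp only [Function.comp_apply, add_sub_cancel_left]
      rw [div_eq_inv_mul]
    exact tendsto_nhds_unique h1 h2
  have hzp : 0 < ‖z - p‖ := hr.trans hz
  have hz0 : z - p ≠ 0 := norm_pos_iff.1 hzp
  have hζ : (z - p)⁻¹ ∈ ball (0 : ℂ) r⁻¹ := by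
    rw [mem_ball_zero_iff, norm_inv]
    exact (inv_lt_inv₀ hzp hr).2 hz
  have hfin := FAR.schwarz hR hdk k0 hder hbk hζ
  rw [kn _ (inv_ne_zero hz0), inv_inv, add_sub_cancel] at hfin
  refine hfin.trans (le_of_eq ?_)
  rw [norm_inv]
  field_simp

end Pool.Agent.NCP
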