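import Pool.Agent.NCP.Stmts2
import Pool.Agent.ANL.Final

/-!
# FATB: the part near a point has a large capacity
-/

set_option autoImplicit false

namespace Pool.Agent.NCP

open MeasureTheory Set Pool.Agent.ANL

/-- FATB -/
theorem FATB_thm (hBUMP : Stmt_BUMP) (hCONT : Stmt_CONT) : Stmt_FATB := by
  intro E x δ hE hδ ⟨S, hSE, hS, hxS, hd⟩
  have hKE : closure S ⊆ E := closure_minimal hSE hE.isClosed
  have hKc : IsCompact (closure S) := hE.of_isClosed_subset isClosed_closure hKE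
  have hKp : IsPreconnected (closure S) := hS.closure
  have hex : ∃ y ∈ closure S, δ / 4 < ‖y - x‖ := by
    by_contra hcon
    push Not at hcon
    have h1 : S ⊆ Metric.closedBall x (δ / 4) := by
      intro y hy
      rw [Metric.mem_closedBall, dist_eq_norm]
      exact hcon y (subset_closure hy)
    have h2 : Metric.diam S ≤ 2 * (δ / 4) :=
      (Metric.diam_mono h1 Metric.isBounded_closedBall).trans
        (Metric.diam_closedBall (by positivity))
    linarith
  obtain ⟨C, hC, hCc, hCp, hxC, y, hy, hyx⟩ :=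
    hBUMP (closure S) x (δ / 4) hKc hKp (subset_closure hxS) (by positivity) hex
  obtain ⟨pq, hpq, hmax⟩ := (hCc.prod hCc).exists_isMaxOn ⟨(x, x), hxC, hxC⟩
    (f := fun pq : ℂ × ℂ => ‖pq.1 - pq.2‖) (by fun_prop)
  have hm : ∀ u ∈ C, ∀ v ∈ C, ‖u - v‖ ≤ ‖pq.1 - pq.2‖ := fun u hu v hv =>
    hmax (show (u, v) ∈ C ×ˢ C from ⟨hu, hv⟩)
  have h1 := hCONT C pq.1 pq.2 hCc hCp hpq.1 hpq.2
    (fun u hu => ⟨hm u hu _ hpq.1, hm u hu _ hpq.2⟩)
  have h2 := hm y hy x hxC
  have h3 : FCC.gam C ≤ FCC.gam (E ∩ Metric.closedBall x (δ / 4)) := by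
    apply gam_mono (hE.inter_right Metric.isClosed_closedBall)
    intro z hz
    exact ⟨hKE (hC hz).1, (hC hz).2⟩
  linarith

end Pool.Agent.NCP
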