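import Pool.Agent.NCP.Stmts
import Pool.Agent.ANL.Final

/-!
# GLUE: functions on separated sets
-/

set_option autoImplicit false

namespace Pool.Agent.NCP

open MeasureTheory Set Filter Topology

namespace GLUE

lemma lim_term (c x : ℂ) : Tendsto (fun z : ℂ => z * (c / (z - x))) (cocompact ℂ) (𝓝 c) := by
  rw [← Metric.cobounded_eq_cocompact]
  have h1 : Tendsto (fun z : ℂ => (z - x)⁻¹) (Bornology.cobounded ℂ) (𝓝 0) := by
    have h2 := tendsto_inv₀_cobounded.comp (tendsto_const_add_cobounded (-x))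
    refine h2.congr fun z => ?_
    show (-x + z)⁻¹ = (z - x)⁻¹
    congr 1
    ring
  have h3 : Tendsto (fun z : ℂ => c + c * x * (z - x)⁻¹) (Bornology.cobounded ℂ)
      (𝓝 (c + c * x * 0)) := tendsto_const_nhds.add (h1.const_mul _)
  rw [mul_zero, add_zero] at h3
  refine h3.congr' ?_
  have h4 : ∀ᶠ z : ℂ in Bornology.cobounded ℂ, ‖x‖ < ‖z‖ :=
    tendsto_norm_cobounded_atTop.eventually (eventually_gt_atTop ‖x‖)
  filter_upwards [h4] with z hz
  have h5 : z - x ≠ 0 := by
    intro h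
    rw [sub_eq_zero.1 h] at hz
    exact lt_irrefl _ hz
  field_simp
  ring

lemma lim_pot {N : ℕ} (X : Finset ℂ) (w : ℂ → ℝ) (lab : ℂ → Fin N) (j : Fin N) :
    Tendsto (fun z => z * pot X w lab j z) (cocompact ℂ) (𝓝 ((ms X w lab j : ℝ) : ℂ)) := by
  unfold pot ms
  rw [Complex.ofReal_sum]
  simp only [Finset.mul_sum]
  exact tendsto_finsetSum _ fun x _ => lim_term _ _

/-- the difference to the potential, far away -/
lemma far (hFAR : Stmt_FAR) {N : ℕ} {J : Finset (Fin N)} {K : Fin N → Set ℂ} {p : Fin N → ℂ}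
    {d : Fin N → ℝ} {f : Fin N → ℂ → ℂ} {X : Finset ℂ} {w : ℂ → ℝ} {lab : ℂ → Fin N} {θ : ℝ}
    (hLab : Lab J p d X lab) (hw : ∀ x ∈ X, 0 ≤ w x) (hθ : 0 < θ) (hθ1 : θ ≤ 1) {j : Fin N}
    (hd : 0 < d j) (hK : K j ⊆ Metric.closedBall (p j) (d j))
    (hA : Adm (K j) (f j) (ms X w lab j))
    (hb : ∀ z ∉ K j, ‖f j z‖ ≤ ms X w lab j / (θ * d j)) {z : ℂ}
    (hz : 3 * d j ≤ ‖z - p j‖) :
    ‖f j z - pot X w lab j z‖ ≤ 27 / 4 * (ms X w lab j * d j) / (θ * ‖z - p j‖ ^ 2) := by
  have hW : 0 ≤ ms X w lab j :=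
    Finset.sum_nonneg fun x hx => hw x (Finset.mem_filter.1 hx).1
  have hx : ∀ x ∈ X.filter (fun x => lab x = j), ‖x - p j‖ ≤ d j := by
    intro x hx
    rw [Finset.mem_filter] at hx
    have := (hLab x hx.1).2
    rwa [hx.2] at this
  have hout : ∀ u : ℂ, 3 / 2 * d j < ‖u - p j‖ → u ∉ K j := by
    intro u hu hK'
    have := hK hK'
    rw [Metric.mem_closedBall, dist_eq_norm] at this
    linarith
  have hux : ∀ u : ℂ, 3 / 2 * d j < ‖u - p j‖ → ∀ x ∈ X.filter (fun x => lab x = j),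
      d j / 2 ≤ ‖u - x‖ := by
    intro u hu x hx'
    have h1 := hx x hx'
    have h2 : ‖u - p j‖ ≤ ‖u - x‖ + ‖x - p j‖ := by
      calc ‖u - p j‖ = ‖(u - x) + (x - p j)‖ := by congr 1; ring
        _ ≤ _ := norm_add_le _ _
    linarith
  have key := hFAR (fun u => f j u - pot X w lab j u) (p j) (3 / 2 * d j)
    (3 * ms X w lab j / (θ * d j)) (by positivity) (by positivity) ?_ ?_ ?_ z (by linarith)
  · refine key.trans (le_of_eq ?_)
    have hz0 : ‖z - p j‖ ≠ 0 := by
      have : 0 < ‖z - p j‖ := by linarith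
      exact this.ne'
    field_simp
    ring
  · refine DifferentiableOn.sub ?_ ?_
    · exact hA.diff.mono fun u hu => hout u hu
    · unfold pot
      refine DifferentiableOn.fun_sum fun x hx' => ?_
      intro u hu
      have h1 := hux u hu x hx'
      have h2 : u - x ≠ 0 := by
        intro h0
        rw [h0, norm_zero] at h1
        linarith
      exact ((differentiableAt_const _).div (differentiableAt_id.sub_const x) h2).differentiableWithinAt
  · intro u hu
    have h1 := hb u (hout u hu)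
    have h2 : ‖pot X w lab j u‖ ≤ ms X w lab j / (d j / 2) := by
      unfold pot ms
      refine (norm_sum_le _ _).trans ?_
      rw [Finset.sum_div]
      refine Finset.sum_le_sum fun x hx' => ?_
      have hwx := hw x (Finset.mem_filter.1 hx').1
      rw [norm_div, Complex.norm_real, Real.norm_of_nonneg hwx]
      exact div_le_div_of_nonneg_left hwx (by positivity) (hux u hu x hx')
    have h3 : ms X w lab j / (d j / 2) ≤ 2 * ms X w lab j / (θ * d j) := by
      rw [div_le_div_iff₀ (by positivity) (by positivity)]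
      have : ms X w lab j * d j * θ ≤ ms X w lab j * d j * 1 :=
        mul_le_mul_of_nonneg_left hθ1 (by positivity)
      nlinarith
    calc ‖f j u - pot X w lab j u‖ ≤ ‖f j u‖ + ‖pot X w lab j u‖ := norm_sub_le _ _
      _ ≤ ms X w lab j / (θ * d j) + 2 * ms X w lab j / (θ * d j) := by linarith
      _ = _ := by ring
  · have h1 := hA.lim1.sub (lim_pot X w lab j)
    rw [sub_self] at h1
    refine h1.congr fun u => ?_
    ring

end GLUE

open GLUE in
theorem GLUE_thm (hMAXA : Stmt_MAXA) (hFAR : Stmt_FAR) (hHARM : Stmt_HARM) : Stmt_GLUE := by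
  classical
  intro N J K p d f X w lab ε B θ hSep hε hεd hLab hw hms hpot herr hθ hθ1 hB hKc hKp hAdm hfb
  set U : Set ℂ := ⋃ i ∈ J, K i with hU
  have hUc : IsCompact U := J.isCompact_biUnion fun i _ => hKc i
  have hΛ : 0 < B + 200 / θ := by positivity
  rcases J.eq_empty_or_nonempty with hJ | hJ
  · -- no labels
    have hX : X = ∅ := by
      rw [Finset.eq_empty_iff_forall_notMem]
      intro x hx
      have := (hLab x hx).1
      rw [hJ] at this
      exact absurd this (Finset.notMem_empty _)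
    rw [hX, Finset.sum_empty, zero_div]
    exact ANL.gam_nonneg hUc
  have hW : ∀ j, 0 ≤ ms X w lab j := fun j =>
    Finset.sum_nonneg fun x hx => hw x (Finset.mem_filter.1 hx).1
  have hsum : ∑ j ∈ J, ms X w lab j = ∑ x ∈ X, w x := by
    unfold ms
    exact Finset.sum_fiberwise_of_maps_to (fun x hx => (hLab x hx).1) _
  have hout : ∀ z, z ∉ U → ∀ j ∈ J, z ∉ K j := by
    intro z hz j hj hzj
    exact hz (mem_iUnion₂.2 ⟨j, hj, hzj⟩)
  set F : ℂ → ℂ := fun z => ∑ j ∈ J, f j z with hF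
  have hFd : DifferentiableOn ℂ F Uᶜ := by
    refine DifferentiableOn.fun_sum fun j hj => ?_
    exact (hAdm j hj).diff.mono fun z hz => hout z hz j hj
  have hF0 : Tendsto F (cocompact ℂ) (𝓝 0) := by
    have h1 : Tendsto F (cocompact ℂ) (𝓝 (∑ j ∈ J, (0 : ℂ))) :=
      tendsto_finsetSum _ fun j hj => (hAdm j hj).lim0
    rwa [Finset.sum_const_zero] at h1
  have hF1 : Tendsto (fun z => z * F z) (cocompact ℂ) (𝓝 (((∑ x ∈ X, w x : ℝ)) : ℂ)) := by
    rw [← hsum, Complex.ofReal_sum]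
    simp only [hF, Finset.mul_sum]
    exact tendsto_finsetSum _ fun j hj => (hAdm j hj).lim1
  -- the bound near a label
  have hnear : ∀ i ∈ J, ∀ z, z ∉ U → ‖z - p i‖ ≤ 2 * d i → ‖F z‖ ≤ B + 200 / θ := by
    intro i hi z hz hzi
    have hdi := hSep.pos i hi
    have h1 : ‖f i z‖ ≤ 1 / θ := by
      refine (hfb i hi z (hout z hz i hi)).trans ?_
      rw [div_le_div_iff₀ (by positivity) hθ]
      have := mul_le_mul_of_nonneg_right (hms i hi) hθ.le
      linarith
    have h2 := hHARM N J p d X w lab ε B hSep hεd hLab hw hms hpot i hi z hzi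
    have h3 : ‖∑ j ∈ J.erase i, (f j z - pot X w lab j z)‖ ≤ 57 / θ := by
      refine (norm_sum_le _ _).trans ?_
      have h4 : ∀ j ∈ J.erase i, ‖f j z - pot X w lab j z‖ ≤
          75 / 4 / θ * (ms X w lab j * d j / ‖p i - p j‖ ^ 2) := by
        intro j hj
        rw [Finset.mem_erase] at hj
        have hdj := hSep.pos j hj.2
        obtain ⟨hs1, hs2⟩ := hSep.sep i hi j hj.2 (Ne.symm hj.1)
        have h5 : ‖p i - p j‖ ≤ ‖z - p j‖ + ‖z - p i‖ := by
          calc ‖p i - p j‖ = ‖(z - p j) - (z - p i)‖ := by congr 1; ring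
            _ ≤ _ := norm_sub_le _ _
        have h6 : 3 / 5 * ‖p i - p j‖ ≤ ‖z - p j‖ := by linarith
        have h7 : 3 * d j ≤ ‖z - p j‖ := by linarith
        have h8 := far hFAR hLab hw hθ hθ1 hdj (hKp j hj.2) (hAdm j hj.2) (hfb j hj.2) h7
        refine h8.trans ?_
        have hP : 0 < ‖p i - p j‖ := by linarith
        have h9 : 9 / 25 * ‖p i - p j‖ ^ 2 ≤ ‖z - p j‖ ^ 2 := by
          calc 9 / 25 * ‖p i - p j‖ ^ 2 = (3 / 5 * ‖p i - p j‖) ^ 2 := by ring
            _ ≤ _ := pow_le_pow_left₀ (by positivity) h6 2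
        have hWd : 0 ≤ ms X w lab j * d j := mul_nonneg (hW j) hdj.le
        calc 27 / 4 * (ms X w lab j * d j) / (θ * ‖z - p j‖ ^ 2)
            ≤ 27 / 4 * (ms X w lab j * d j) / (θ * (9 / 25 * ‖p i - p j‖ ^ 2)) := by
              refine div_le_div_of_nonneg_left (by positivity) (by positivity) ?_
              exact mul_le_mul_of_nonneg_left h9 hθ.le
          _ = _ := by
              field_simp
              ring
      refine (Finset.sum_le_sum h4).trans ?_
      rw [← Finset.mul_sum]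
      calc 75 / 4 / θ * ∑ j ∈ J.erase i, ms X w lab j * d j / ‖p i - p j‖ ^ 2
          ≤ 75 / 4 / θ * 3 := mul_le_mul_of_nonneg_left (herr i hi) (by positivity)
        _ = (225 / 4) / θ := by ring
        _ ≤ 57 / θ := by
            refine div_le_div_of_nonneg_right ?_ hθ.le
            norm_num
    have h10 : F z = f i z + ∑ j ∈ J.erase i, (f j z - pot X w lab j z)
        + ∑ j ∈ J.erase i, pot X w lab j z := by
      simp only [hF]
      rw [← Finset.add_sum_erase J (fun j => f j z) hi, Finset.sum_sub_distrib]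
      ring
    have h11 : (1 : ℝ) ≤ 1 / θ := by
      rw [le_div_iff₀ hθ]
      linarith
    have h12 : 1 / θ + 57 / θ + (B + 1) ≤ B + 200 / θ := by
      have e : 200 / θ = 1 / θ + 57 / θ + 1 / θ + 141 / θ := by ring
      have : 0 ≤ 141 / θ := by positivity
      linarith
    calc ‖F z‖ ≤ ‖f i z‖ + ‖∑ j ∈ J.erase i, (f j z - pot X w lab j z)‖
          + ‖∑ j ∈ J.erase i, pot X w lab j z‖ := by
          rw [h10]
          exact norm_add₃_le
      _ ≤ 1 / θ + 57 / θ + (B + 1) := by linarith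
      _ ≤ _ := h12
  -- the smallest size
  obtain ⟨i₀, hi₀, hmin⟩ := J.exists_min_image d hJ
  have hall : ∀ z ∉ U, ‖F z‖ ≤ B + 200 / θ := by
    refine hMAXA U F (B + 200 / θ) (d i₀) hUc hΛ (hSep.pos i₀ hi₀) hFd hF0 ?_
    rintro z hz ⟨x, hx, hxz⟩
    obtain ⟨i, hi, hxi⟩ := mem_iUnion₂.1 hx
    refine hnear i hi z hz ?_
    have h1 := hKp i hi hxi
    rw [Metric.mem_closedBall, dist_eq_norm] at h1
    have h2 : ‖z - p i‖ ≤ ‖z - x‖ + ‖x - p i‖ := by
      calc ‖z - p i‖ = ‖(z - x) + (x - p i)‖ := by congr 1; ring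
        _ ≤ _ := norm_add_le _ _
    have h3 := hmin i hi
    linarith
  -- the capacity
  have hs0 : 0 ≤ ∑ x ∈ X, w x := Finset.sum_nonneg hw
  refine le_csSup (FCC.MAXP.bdd U hUc) ?_
  refine ⟨fun z => ((B + 200 / θ : ℝ) : ℂ)⁻¹ * F z,
    ((B + 200 / θ : ℝ) : ℂ)⁻¹ * ((∑ x ∈ X, w x : ℝ) : ℂ), hFd.const_mul _, ?_, ?_, ?_, ?_⟩
  · intro z hz
    rw [norm_mul, norm_inv, Complex.norm_real, Real.norm_of_nonneg hΛ.le,
      inv_mul_le_iff₀ hΛ, mul_one]
    exact hall z hz
  · have := hF0.const_mul ((B + 200 / θ : ℝ) : ℂ)⁻¹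
    rwa [mul_zero] at this
  · refine (hF1.const_mul ((B + 200 / θ : ℝ) : ℂ)⁻¹).congr fun z => ?_
    ring
  · rw [norm_mul, norm_inv, Complex.norm_real, Complex.norm_real, Real.norm_of_nonneg hΛ.le,
      Real.norm_of_nonneg hs0, div_eq_inv_mul]

end Pool.Agent.NCP
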