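import Pool.Agent.NCP.Stmts

/-!
# HARM: the potential of the other labels near a label (MP_98e313_an)
-/

set_option autoImplicit false

namespace Pool.Agent.NCP

open MeasureTheory Set Pool.Agent.ANL

namespace HARM

/-- A point of another label is far from the ball of radius `2 d i`. -/
theorem far {N : ℕ} {J : Finset (Fin N)} {p : Fin N → ℂ} {d : Fin N → ℝ} {X : Finset ℂ}
    {lab : ℂ → Fin N} (hS : Sep J p d) (hL : Lab J p d X lab) {i : Fin N} (hi : i ∈ J) {z x : ℂ}
    (hz : ‖z - p i‖ ≤ 2 * d i) (hx : x ∈ X) (hne : lab x ≠ i) : 2 * d i < ‖z - x‖ := by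
  obtain ⟨hj, hd⟩ := hL x hx
  obtain ⟨h1, h2⟩ := hS.sep i hi (lab x) hj (fun h => hne h.symm)
  have hpi := hS.pos i hi
  have hpj := hS.pos (lab x) hj
  have h3 : ‖p i - p (lab x)‖ ≤ ‖z - p i‖ + ‖z - x‖ + ‖x - p (lab x)‖ := by
    have e : p i - p (lab x) = -(z - p i) + (z - x) + (x - p (lab x)) := by ring
    rw [e]
    calc ‖-(z - p i) + (z - x) + (x - p (lab x))‖
        ≤ ‖-(z - p i) + (z - x)‖ + ‖x - p (lab x)‖ := norm_add_le _ _
      _ ≤ ‖-(z - p i)‖ + ‖z - x‖ + ‖x - p (lab x)‖ := by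
          gcongr
          exact norm_add_le _ _
      _ = _ := by rw [norm_neg]
  nlinarith

theorem near {N : ℕ} {J : Finset (Fin N)} {p : Fin N → ℂ} {d : Fin N → ℝ} {X : Finset ℂ}
    {lab : ℂ → Fin N} (hL : Lab J p d X lab) {i : Fin N} {z x : ℂ}
    (hz : ‖z - p i‖ = 2 * d i) (hx : x ∈ X) (he : lab x = i) : d i ≤ ‖z - x‖ := by
  obtain ⟨_, hd⟩ := hL x hx
  rw [he] at hd
  have h3 : ‖z - p i‖ ≤ ‖z - x‖ + ‖x - p i‖ := by
    have e : z - p i = (z - x) + (x - p i) := by ring
    rw [e]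
    exact norm_add_le _ _
  linarith

/-- The sum of the potentials is the whole sum. -/
theorem total {N : ℕ} {J : Finset (Fin N)} {p : Fin N → ℂ} {d : Fin N → ℝ} {X : Finset ℂ}
    {lab : ℂ → Fin N} (w : ℂ → ℝ) (hL : Lab J p d X lab) (z : ℂ) :
    ∑ j ∈ J, pot X w lab j z = ∑ x ∈ X, (w x : ℂ) / (z - x) :=
  Finset.sum_fiberwise_of_maps_to (fun x hx => (hL x hx).1) _

theorem own {N : ℕ} {J : Finset (Fin N)} {p : Fin N → ℂ} {d : Fin N → ℝ} {X : Finset ℂ}
    {lab : ℂ → Fin N} {w : ℂ → ℝ} (hL : Lab J p d X lab) (hw : ∀ x ∈ X, 0 ≤ w x) {i : Fin N}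
    (hd : 0 < d i) (hm : ms X w lab i ≤ d i) {z : ℂ} (hz : ‖z - p i‖ = 2 * d i) :
    ‖pot X w lab i z‖ ≤ 1 := by
  have h1 : ‖pot X w lab i z‖ ≤ ∑ x ∈ X.filter (fun x => lab x = i), w x / d i := by
    refine (norm_sum_le _ _).trans (Finset.sum_le_sum fun x hx => ?_)
    obtain ⟨hxX, he⟩ := Finset.mem_filter.1 hx
    have h2 := near hL hz hxX he
    rw [norm_div, Complex.norm_real, Real.norm_eq_abs, abs_of_nonneg (hw x hxX)]
    exact div_le_div_of_nonneg_left (hw x hxX) hd h2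
  rw [← Finset.sum_div] at h1
  exact h1.trans ((div_le_one hd).2 hm)

end HARM

theorem HARM_thm : Stmt_HARM := by
  intro N J p d X w lab ε B hS hε hL hw hm hB i hi z hz
  have hdi := hS.pos i hi
  have hεi := hε i hi
  set H : ℂ → ℂ := fun z => ∑ j ∈ J.erase i, pot X w lab j z with hH
  have hne : ∀ u : ℂ, ‖u - p i‖ ≤ 2 * d i → ∀ j ∈ J.erase i,
      ∀ x ∈ X.filter (fun x => lab x = j), u - x ≠ 0 := by
    intro u hu j hj x hx
    obtain ⟨hxX, he⟩ := Finset.mem_filter.1 hx
    have h1 := HARM.far hS hL hi hu hxX (by rw [he]; exact Finset.ne_of_mem_erase hj)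
    exact norm_pos_iff.1 (by linarith)
  have hdiff : DifferentiableOn ℂ H (Metric.closedBall (p i) (2 * d i)) := by
    intro u hu
    have hu' : ‖u - p i‖ ≤ 2 * d i := by
      rw [← dist_eq_norm]
      exact hu
    refine DifferentiableAt.differentiableWithinAt ?_
    have : H = fun z => ∑ j ∈ J.erase i, ∑ x ∈ X.filter (fun x => lab x = j),
        (w x : ℂ) / (z - x) := rfl
    rw [this]
    refine DifferentiableAt.fun_sum fun j hj => DifferentiableAt.fun_sum fun x hx => ?_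
    exact (differentiableAt_const _).div (differentiableAt_id.sub (differentiableAt_const _))
      (hne u hu' j hj x hx)
  have h2d : 2 * d i ≠ 0 := by positivity
  have hcl : closure (Metric.ball (p i) (2 * d i)) = Metric.closedBall (p i) (2 * d i) :=
    closure_ball _ h2d
  have hDC : DiffContOnCl ℂ H (Metric.ball (p i) (2 * d i)) := by
    refine DifferentiableOn.diffContOnCl ?_
    rw [hcl]
    exact hdiff
  have hfr : ∀ u ∈ frontier (Metric.ball (p i) (2 * d i)), ‖H u‖ ≤ B + 1 := by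
    intro u hu
    rw [frontier_ball _ h2d] at hu
    have hu' : ‖u - p i‖ = 2 * d i := by
      rw [← dist_eq_norm]
      exact hu
    have h1 : ‖∑ x ∈ X, (w x : ℂ) / (u - x)‖ ≤ B := by
      refine hB u fun x hx => ?_
      by_cases he : lab x = i
      · exact hεi.trans_le (HARM.near hL hu' hx he)
      · have := HARM.far hS hL hi hu'.le hx he
        linarith
    have h2 := HARM.own hL hw hdi (hm i hi) hu'
    have h3 : H u = ∑ x ∈ X, (w x : ℂ) / (u - x) - pot X w lab i u := by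
      rw [← HARM.total w hL u, ← Finset.add_sum_erase J _ hi, hH]
      ring
    rw [h3]
    exact (norm_sub_le _ _).trans (add_le_add h1 h2)
  have hz' : z ∈ closure (Metric.ball (p i) (2 * d i)) := by
    rw [hcl, Metric.mem_closedBall, dist_eq_norm]
    exact hz
  exact Complex.norm_le_of_forall_mem_frontier_norm_le Metric.isBounded_ball hDC hfr hz'

end Pool.Agent.NCP
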