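import Pool.Agent.NCP.Stmts

/-!
# The maximum principle in the complement of a compact set
-/

set_option autoImplicit false

namespace Pool.Agent.NCP

open MeasureTheory Set Filter Topology Metric

theorem MAXA_thm : Stmt_MAXA := by
  intro K f Λ δ hK hΛ hδ hf h0 hb z hz
  by_cases hzK : ∃ x ∈ K, ‖z - x‖ ≤ δ
  · exact hb z hz hzK
  have hε : 0 ≤ δ / 2 := by positivity
  have hε' : 0 < δ / 2 := by positivity
  have hmem : ∀ w ∈ cthickening (δ / 2) K, ∃ x ∈ K, ‖w - x‖ ≤ δ := by
    intro w hw
    rw [hK.cthickening_eq_biUnion_closedBall hε] at hw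
    obtain ⟨x, hx, hw⟩ := mem_iUnion₂.1 hw
    refine ⟨x, hx, ?_⟩
    rw [mem_closedBall, dist_eq_norm] at hw
    linarith
  have hK' : IsCompact (cthickening (δ / 2) K) := hK.cthickening
  have hzK' : z ∉ cthickening (δ / 2) K := fun h => hzK (hmem z h)
  -- a large ball
  have h1 : ∀ᶠ w in cocompact ℂ, ‖f w‖ ≤ Λ := by
    have := h0.norm
    rw [norm_zero] at this
    exact (this.eventually (gt_mem_nhds hΛ)).mono fun w hw => hw.le
  rw [← Metric.cobounded_eq_cocompact, ← comap_norm_atTop, eventually_comap,
    eventually_atTop] at h1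
  obtain ⟨R₁, hR₁⟩ := h1
  set R : ℝ := max R₁ (‖z‖ + 1) with hR
  have hR1 : R₁ ≤ R := le_max_left _ _
  have hR3 : ‖z‖ < R := lt_of_lt_of_le (by linarith) (le_max_right _ _)
  set U : Set ℂ := ball 0 R \ cthickening (δ / 2) K with hU
  have hUo : IsOpen U := isOpen_ball.sdiff hK'.isClosed
  have hUb : Bornology.IsBounded U := isBounded_ball.subset sdiff_subset
  have hcl : closure U ⊆ Kᶜ := by
    have h2 : closure U ⊆ (thickening (δ / 2) K)ᶜ := by
      apply closure_minimal
      · intro w hw hw'
        exact hw.2 (thickening_subset_cthickening _ _ hw')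
      · exact isOpen_thickening.isClosed_compl
    exact h2.trans (compl_subset_compl.2 (self_subset_thickening hε' K))
  have hdiff : ∀ w ∈ closure U, DifferentiableAt ℂ f w := fun w hw =>
    hf.differentiableAt (hK.isClosed.isOpen_compl.mem_nhds (hcl hw))
  have hd : DiffContOnCl ℂ f U := by
    refine ⟨fun w hw => ?_, fun w hw => ?_⟩
    · exact (hdiff w (subset_closure hw)).differentiableWithinAt
    · exact (hdiff w hw).continuousAt.continuousWithinAt
  have hzU : z ∈ closure U := by
    apply subset_closure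
    exact ⟨by simpa using hR3, hzK'⟩
  refine Complex.norm_le_of_forall_mem_frontier_norm_le hUb hd ?_ hzU
  intro w hw
  have hwc : w ∈ closure U := frontier_subset_closure hw
  by_cases hwK : w ∈ cthickening (δ / 2) K
  · exact hb w (hcl hwc) (hmem w hwK)
  · -- a point of the sphere
    have hwb : ‖w‖ ≤ R := by
      have : w ∈ closure (ball (0 : ℂ) R) := closure_mono sdiff_subset hwc
      have := closure_ball_subset_closedBall this
      simpa using this
    have hwn : ¬ ‖w‖ < R := by
      intro hlt
      have hwU : w ∈ U := ⟨by simpa using hlt, hwK⟩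
      rw [hUo.frontier_eq] at hw
      exact hw.2 hwU
    have : ‖w‖ = R := le_antisymm hwb (not_lt.mp hwn)
    exact hR₁ ‖w‖ (by rw [this]; exact hR1) w rfl

end Pool.Agent.NCP
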