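import Mathlib
import Pool.Agent.NCP.Stmts

/-!
# ROOT: a holomorphic square root of `(z - a) / (z - b)` off a connected set
-/

set_option autoImplicit false

namespace Pool.Agent.NCP

open MeasureTheory Set Filter Topology Pool.Agent.ANL

namespace ROOT

/-- the assertion for the point `x` -/
def R (K : Set ℂ) (a : ℂ) (ε : ℝ) (x : ℂ) : Prop :=
  ∃ q : ℂ → ℂ, DifferentiableOn ℂ q (Metric.cthickening ε K)ᶜ ∧
    (∀ z ∉ Metric.cthickening ε K, q z ^ 2 * (z - x) = z - a) ∧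
    Tendsto q (cocompact ℂ) (nhds 1)

theorem far {K : Set ℂ} {ε : ℝ} {z y : ℂ} (hz : z ∉ Metric.cthickening ε K) (hy : y ∈ K) :
    ε < ‖z - y‖ := by
  by_contra h
  exact hz (Metric.mem_cthickening_of_dist_le z y ε K hy (by rw [dist_eq_norm]; linarith))

theorem inv_tendsto (y : ℂ) : Tendsto (fun z : ℂ => (z - y)⁻¹) (cocompact ℂ) (nhds 0) := by
  have h1 : Tendsto (fun z : ℂ => z - y) (cocompact ℂ) (cocompact ℂ) :=
    (Homeomorph.subRight y).isClosedEmbedding.tendsto_cocompact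
  have h2 : Tendsto (fun z : ℂ => z⁻¹) (cocompact ℂ) (nhds 0) := by
    rw [← Metric.cobounded_eq_cocompact]
    exact tendsto_inv₀_cobounded
  exact h2.comp h1

theorem step {K : Set ℂ} {a x y : ℂ} {ε : ℝ} (hε : 0 < ε) (hy : y ∈ K)
    (hxy : ‖y - x‖ < ε) (h : R K a ε x) : R K a ε y := by
  obtain ⟨q, hq, hs, ht⟩ := h
  have hslit : ∀ z ∉ Metric.cthickening ε K, 1 + (y - x) * (z - y)⁻¹ ∈ Complex.slitPlane := by
    intro z hz
    left
    have h1 := far hz hy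
    have h2 : ‖(y - x) * (z - y)⁻¹‖ < 1 := by
      rw [norm_mul, norm_inv, ← div_eq_mul_inv, div_lt_one (by linarith)]
      linarith
    have h3 := Complex.abs_re_le_norm ((y - x) * (z - y)⁻¹)
    rw [Complex.add_re, Complex.one_re]
    have h4 := (abs_lt.1 (h3.trans_lt h2)).1
    linarith
  refine ⟨fun z => q z * (1 + (y - x) * (z - y)⁻¹) ^ (((2 : ℕ) : ℂ)⁻¹), ?_, fun z hz => ?_, ?_⟩
  · refine hq.mul (DifferentiableOn.cpow ?_ (differentiableOn_const _) hslit)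
    refine (differentiableOn_const _).add ((differentiableOn_const _).mul ?_)
    refine DifferentiableOn.inv (differentiableOn_id.sub (differentiableOn_const _)) fun z hz => ?_
    have h1 := far hz hy
    have h2 : 0 < ‖z - y‖ := by linarith
    exact norm_pos_iff.1 h2
  · have h1 := far hz hy
    have h2 : 0 < ‖z - y‖ := by linarith
    have h3 : z - y ≠ 0 := norm_pos_iff.1 h2
    have h4 : (1 + (y - x) * (z - y)⁻¹) * (z - y) = z - x := by
      rw [add_mul, one_mul, mul_assoc, inv_mul_cancel₀ h3, mul_one]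
      ring
    show (q z * (1 + (y - x) * (z - y)⁻¹) ^ (((2 : ℕ) : ℂ)⁻¹)) ^ 2 * (z - y) = z - a
    rw [mul_pow, Complex.cpow_nat_inv_pow _ two_ne_zero, mul_assoc, h4]
    exact hs z hz
  · have h1 : Tendsto (fun z : ℂ => 1 + (y - x) * (z - y)⁻¹) (cocompact ℂ) (nhds 1) := by
      have := (inv_tendsto y).const_mul (y - x)
      have := this.const_add 1
      simpa using this
    have h2 : Tendsto (fun w : ℂ => w ^ (((2 : ℕ) : ℂ)⁻¹)) (nhds 1) (nhds 1) := by
      have h3 : ContinuousAt (fun w : ℂ => w ^ (((2 : ℕ) : ℂ)⁻¹)) 1 :=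
        continuousAt_cpow_const Complex.one_mem_slitPlane
      have h4 : (1 : ℂ) ^ (((2 : ℕ) : ℂ)⁻¹) = 1 := Complex.one_cpow _
      have h5 := h3.tendsto
      rwa [h4] at h5
    have h3 := ht.mul (h2.comp h1)
    simpa using h3

end ROOT

open ROOT

theorem ROOT_thm : Stmt_ROOT := by
  intro K a b ε hK ha hb hε
  have hRa : R K a ε a := ⟨fun _ => 1, differentiableOn_const _, fun z _ => by ring,
    tendsto_const_nhds⟩
  by_contra hRb
  have hRb' : ¬ R K a ε b := hRb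
  obtain ⟨y, hy, hyu, hyv⟩ := hK (⋃ x ∈ {x | x ∈ K ∧ R K a ε x}, Metric.ball x ε)
    (⋃ x ∈ {x | x ∈ K ∧ ¬ R K a ε x}, Metric.ball x ε)
    (isOpen_biUnion fun _ _ => Metric.isOpen_ball) (isOpen_biUnion fun _ _ => Metric.isOpen_ball)
    (fun x hx => by
      by_cases h : R K a ε x
      · exact Or.inl (mem_biUnion (⟨hx, h⟩ : x ∈ {x | x ∈ K ∧ R K a ε x})
          (Metric.mem_ball_self hε))
      · exact Or.inr (mem_biUnion (⟨hx, h⟩ : x ∈ {x | x ∈ K ∧ ¬ R K a ε x})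
          (Metric.mem_ball_self hε)))
    ⟨a, ha, mem_biUnion (⟨ha, hRa⟩ : a ∈ {x | x ∈ K ∧ R K a ε x}) (Metric.mem_ball_self hε)⟩
    ⟨b, hb, mem_biUnion (⟨hb, hRb'⟩ : b ∈ {x | x ∈ K ∧ ¬ R K a ε x}) (Metric.mem_ball_self hε)⟩
  obtain ⟨x, ⟨hx, hRx⟩, hxy⟩ := mem_iUnion₂.1 hyu
  obtain ⟨x', ⟨hx', hRx'⟩, hxy'⟩ := mem_iUnion₂.1 hyv
  have h1 : R K a ε y := step hε hy (by rw [Metric.mem_ball, dist_eq_norm] at hxy; exact hxy) hRx
  exact hRx' (step hε hx' (by
    rw [Metric.mem_ball, dist_eq_norm] at hxy'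
    rw [norm_sub_rev]
    exact hxy') h1)

end Pool.Agent.NCP
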