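import Pool.Agent.NCP.Main
import Pool.Agent.NCP.MAXA
import Pool.Agent.NCP.ROOT
import Pool.Agent.NCP.CONT
import Pool.Agent.NCP.FAR
import Pool.Agent.NCP.DENS
import Pool.Agent.NCP.ERR
import Pool.Agent.NCP.HARM
import Pool.Agent.NCP.GLUE
import Pool.Agent.FCK.GLIM
import Pool.Agent.ANL.CELL
import Pool.Agent.ANL.MISS
import Pool.Agent.ANL.TELE
import Pool.Agent.ANL.EXT
import Pool.Agent.ANL.FSUM
import Pool.Agent.ANL.SYM
import Pool.Agent.ANL.TAIL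
import Pool.Agent.ANL.FIX
import Pool.Agent.ANL.MASS
import Pool.Agent.ANL.MAXM
import Pool.Agent.ANL.FROST
import Pool.Agent.ANL.FAVC
import Pool.Agent.ANL.GEOM
import Pool.Agent.ANL.HSUM
import Pool.Agent.ANL.TRI
import Pool.Agent.ANL.TSUM
import Pool.Agent.ANL.CURV
import Pool.Agent.ANL.TEST

/-!
# Analytic capacity of sets with few components: the final statement
-/

set_option autoImplicit false

namespace Pool.Agent.NCP

open MeasureTheory Set Pool.Agent.ANL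

theorem final : ∃ C : ℝ, 0 < C ∧
    ∀ (N : ℕ), 1 ≤ N → ∀ (E : Set ℂ) (K : Fin N → Set ℂ) (A θ : ℝ),
      IsCompact E → (∀ i, IsCompact (K i)) → (∀ i, K i ⊆ E) → 1 ≤ A → 0 < θ → θ ≤ 1 →
      (∀ i, IsPreconnected (K i) ∨ θ * Metric.diam (K i) ≤ FCC.gam (K i)) →
      (∀ z ∈ E, ∃ i, ∃ x ∈ K i, ‖z - x‖ ≤ A * Metric.diam (K i)) →
      cont1 E ≤ C * A * (√(1 + Real.log N) + 1 / θ) * FCC.gam E ∧
      FCC.Fav E ≤ C * A * (√(1 + Real.log N) + 1 / θ) * FCC.gam E := by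
  have hFSUM : ANL.Stmt_FSUM := ANL.FSUM_thm ANL.CELL_thm (ANL.TELE_thm ANL.MISS_thm) ANL.EXT_thm
  have hTRI : ANL.Stmt_TRI := ANL.TRI_thm ANL.GEOM_thm ANL.CELL_thm
  have hTSUM : ANL.Stmt_TSUM := ANL.TSUM_thm ANL.CELL_thm hTRI ANL.HSUM_thm
  have hCURV : ANL.Stmt_CURV := ANL.CURV_thm hTSUM hFSUM
  have hTEST : ANL.Stmt_TEST := ANL.TEST_thm hCURV ANL.SYM_thm ANL.TAIL_thm
  have hMASS : ANL.Stmt_MASS := ANL.MASS_thm ANL.FIX_thm
  have hMAXM : ANL.Stmt_MAXM := ANL.MAXM_thm ANL.TAIL_thm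
  have hFROST : ANL.Stmt_FROST := ANL.FROST_thm ANL.CELL_thm
  have hCONT : Stmt_CONT := CONT_thm MAXA_thm ROOT_thm FCK.GLIM_thm
  have hGLUE : Stmt_GLUE := GLUE_thm MAXA_thm FAR_thm HARM_thm
  obtain ⟨C, hC, hN⟩ := main (DENS_thm hTEST hMASS hMAXM) (ERR_thm ANL.TAIL_thm) hGLUE hFROST
    ANL.FAVC_thm
  refine ⟨16 * C, by positivity, ?_⟩
  intro N hN1 E K A θ hE hK hKE hA h0 h1 hθ hnear
  have hlog : 0 ≤ Real.log N := Real.log_natCast_nonneg N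
  have hg := gam_nonneg hE
  have h2 := hN N hN1 E K A (θ / 16) hE hK hKE hA (by positivity) (by linarith) (by
    intro i x hx y hy
    rcases hθ i with hc | hf
    · obtain ⟨pq, hpq, hmx⟩ := ((hK i).prod (hK i)).exists_isMaxOn ⟨(x, x), hx, hx⟩
        (f := fun pq : ℂ × ℂ => ‖pq.1 - pq.2‖) (by fun_prop)
      have hm : ∀ u ∈ K i, ∀ v ∈ K i, ‖u - v‖ ≤ ‖pq.1 - pq.2‖ := fun u hu v hv =>
        hmx (show (u, v) ∈ K i ×ˢ K i from ⟨hu, hv⟩)
      have h3 := hCONT (K i) pq.1 pq.2 (hK i) hc hpq.1 hpq.2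
        (fun u hu => ⟨hm u hu _ hpq.1, hm u hu _ hpq.2⟩)
      have h4 := hm x hx y hy
      have h5 : θ * ‖x - y‖ ≤ 1 * ‖pq.1 - pq.2‖ :=
        mul_le_mul h1 h4 (norm_nonneg _) (by norm_num)
      linarith
    · have h3 : ‖x - y‖ ≤ Metric.diam (K i) := by
        rw [← dist_eq_norm]
        exact Metric.dist_le_diam_of_mem (hK i).isBounded hx hy
      have h4 : θ * ‖x - y‖ ≤ θ * Metric.diam (K i) := mul_le_mul_of_nonneg_left h3 h0.le
      have h5 : 0 ≤ θ * ‖x - y‖ := by positivity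
      linarith) hnear
  have h3 : C * A * (√(1 + Real.log N) + 1 / (θ / 16)) * FCC.gam E ≤
      16 * C * A * (√(1 + Real.log N) + 1 / θ) * FCC.gam E := by
    refine mul_le_mul_of_nonneg_right ?_ hg
    have e : 1 / (θ / 16) = 16 * (1 / θ) := by field_simp
    rw [e]
    have h4 : 0 ≤ C * A * √(1 + Real.log N) := by positivity
    nlinarith
  exact ⟨h2.1.trans h3, h2.2.trans h3⟩

end Pool.Agent.NCP
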