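import Pool.Agent.NCP.Stmts2
import Pool.Agent.ANL.Final

/-!
# LARM: the theorem for sets with large components
-/

set_option autoImplicit false

namespace Pool.Agent.NCP

open MeasureTheory Set Pool.Agent.ANL

namespace LARM

/-- A finite net with separated points. -/
theorem net (E : Set ℂ) (r : ℝ) (hE : IsCompact E) (hr : 0 < r) :
    ∃ T : Finset ℂ, (∀ x ∈ T, x ∈ E) ∧ (∀ x ∈ T, ∀ y ∈ T, x ≠ y → r < ‖x - y‖) ∧
      ∀ z ∈ E, ∃ x ∈ T, ‖z - x‖ ≤ r := by
  classical
  -- a bound for the cardinality of separated sets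
  obtain ⟨t, -, ht⟩ := hE.finite_cover_balls (show 0 < r / 2 by positivity)
  obtain ⟨htf, hcov⟩ := ht
  set P : Finset ℂ → Prop := fun T => (∀ x ∈ T, x ∈ E) ∧
    ∀ x ∈ T, ∀ y ∈ T, x ≠ y → r < ‖x - y‖ with hP
  have hb : ∀ T : Finset ℂ, P T → T.card ≤ htf.toFinset.card := by
    intro T hT
    have hex : ∀ x : ℂ, ∃ c : ℂ, x ∈ T → c ∈ t ∧ ‖x - c‖ < r / 2 := by
      intro x
      by_cases hx : x ∈ T
      · obtain ⟨c, hc, hxc⟩ := mem_iUnion₂.1 (hcov (hT.1 x hx))
        rw [Metric.mem_ball, dist_eq_norm] at hxc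
        exact ⟨c, fun _ => ⟨hc, hxc⟩⟩
      · exact ⟨0, fun h => absurd h hx⟩
    choose g hg using hex
    refine Finset.card_le_card_of_injOn g (fun x hx => ?_) ?_
    · exact (Set.Finite.mem_toFinset htf).2 (hg x hx).1
    · intro x hx y hy hxy
      by_contra hne
      have h1 := hT.2 x hx y hy hne
      have h2 := (hg x hx).2
      have h3 := (hg y hy).2
      rw [← hxy] at h3
      have h4 : ‖x - y‖ ≤ ‖x - g x‖ + ‖y - g x‖ := by
        calc ‖x - y‖ = ‖(x - g x) - (y - g x)‖ := by congr 1; ring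
          _ ≤ _ := norm_sub_le _ _
      linarith
  -- a maximal one
  have hex : ∃ n : ℕ, ∃ T : Finset ℂ, P T ∧ T.card = n ∧ ∀ T' : Finset ℂ, P T' → T'.card ≤ n := by
    by_contra hcon
    push Not at hcon
    have h1 : ∀ n : ℕ, ∃ T : Finset ℂ, P T ∧ n ≤ T.card := by
      intro n
      induction n with
      | zero => exact ⟨∅, ⟨fun x hx => absurd hx (Finset.notMem_empty x),
          fun x hx => absurd hx (Finset.notMem_empty x)⟩, Nat.zero_le _⟩
      | succ n ih =>
        obtain ⟨T, hT, hn⟩ := ih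
        obtain ⟨T', hT', h2⟩ := hcon T.card T hT rfl
        exact ⟨T', hT', by omega⟩
    obtain ⟨T, hT, hn⟩ := h1 (htf.toFinset.card + 1)
    have := hb T hT
    omega
  obtain ⟨n, T, hT, hTn, hmax⟩ := hex
  refine ⟨T, hT.1, hT.2, fun z hz => ?_⟩
  by_contra hcon
  push Not at hcon
  have hzT : z ∉ T := by
    intro h
    have := hcon z h
    rw [sub_self, norm_zero] at this
    linarith
  have h1 : P (insert z T) := by
    refine ⟨fun x hx => ?_, fun x hx y hy hxy => ?_⟩
    · rcases Finset.mem_insert.1 hx with rfl | hx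
      · exact hz
      · exact hT.1 x hx
    · rcases Finset.mem_insert.1 hx with hx1 | hx1
      · rcases Finset.mem_insert.1 hy with hy1 | hy1
        · exact absurd (hx1.trans hy1.symm) hxy
        · rw [hx1]
          exact hcon y hy1
      · rcases Finset.mem_insert.1 hy with hy1 | hy1
        · rw [hy1, norm_sub_rev]
          exact hcon x hx1
        · exact hT.2 x hx1 y hy1 hxy
  have h2 := hmax _ h1
  rw [Finset.card_insert_of_notMem hzT, hTn] at h2
  omega

end LARM

open LARM in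
/-- LARM -/
theorem LARM_thm (hNCPM : Stmt_NCPM) (hFATB : Stmt_FATB) (hNETM : Stmt_NETM)
    (hCOVC : Stmt_COVC) (hFAVC : ANL.Stmt_FAVC) : Stmt_LARM := by
  classical
  obtain ⟨C, hC, hN⟩ := hNCPM
  refine ⟨C * 36, by positivity, ?_⟩
  intro E δ hE hδ hcomp
  have hg := gam_nonneg hE
  rcases E.eq_empty_or_nonempty with hemp | ⟨e, he⟩
  · have hcov : Cov E 0 := ⟨0, Fin.elim0, Fin.elim0, fun i => i.elim0, by rw [hemp]; simp, by simp⟩
    obtain ⟨h1, h2⟩ := hFAVC E 0 hcov
    have h3 : 0 ≤ C * 36 * √(1 + Real.log (1 + cont1 E / δ)) * FCC.gam E := by positivity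
    exact ⟨by linarith, by linarith⟩
  have hH : 0 ≤ cont1 E := by
    apply Real.sInf_nonneg
    rintro s ⟨U, -, -, -, rfl⟩
    exact tsum_nonneg fun n => Metric.diam_nonneg
  obtain ⟨T, hTE, hTs, hTc⟩ := net E (δ / 4) hE (by positivity)
  have hTne : T.Nonempty := by
    obtain ⟨x, hx, -⟩ := hTc e he
    exact ⟨x, hx⟩
  have hcard := hNETM E δ (cont1 E + δ) hE hδ hcomp (hCOVC E _ hE (by linarith)) T hTE hTs
  set n : ℕ := T.card with hn
  have hn1 : 1 ≤ n := Finset.card_pos.2 hTne
  let φ : Fin n ≃ T := (Fintype.equivFinOfCardEq (by simp [hn])).symm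
  set K : Fin n → Set ℂ := fun i => E ∩ Metric.closedBall (φ i : ℂ) (δ / 4) with hK
  have hKc : ∀ i, IsCompact (K i) := fun i => hE.inter_right Metric.isClosed_closedBall
  have hEK : (⋃ i, K i) = E := by
    apply Subset.antisymm
    · exact iUnion_subset fun i => inter_subset_left
    · intro z hz
      obtain ⟨x, hx, hzx⟩ := hTc z hz
      refine mem_iUnion.2 ⟨φ.symm ⟨x, hx⟩, hz, ?_⟩
      rw [Equiv.apply_symm_apply, Metric.mem_closedBall, dist_eq_norm]
      exact hzx
  have hmain := hN n hn1 K (1 / 32) hKc (by norm_num) (by norm_num) (by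
    intro i x hx y hy
    have h1 := hFATB E (φ i : ℂ) δ hE hδ (hcomp _ (hTE _ (φ i).2))
    have h2 : ‖x - y‖ ≤ δ / 2 := by
      have hx2 := hx.2
      have hy2 := hy.2
      rw [Metric.mem_closedBall, dist_eq_norm] at hx2 hy2
      calc ‖x - y‖ = ‖(x - φ i) - (y - φ i)‖ := by congr 1; ring
        _ ≤ ‖x - φ i‖ + ‖y - φ i‖ := norm_sub_le _ _
        _ ≤ δ / 2 := by linarith
    refine le_trans ?_ h1
    linarith)
  rw [hEK] at hmain
  -- the logarithm
  set L : ℝ := Real.log (1 + cont1 E / δ) with hL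
  have hL0 : 0 ≤ L := Real.log_nonneg (by
    have : 0 ≤ cont1 E / δ := by positivity
    linarith)
  have hlogn : 1 + Real.log n ≤ 13 * (1 + L) := by
    have hq : 0 ≤ cont1 E / δ := by positivity
    have h1 : (n : ℝ) ≤ 52000 * (1 + cont1 E / δ) ^ 2 := by
      refine hcard.trans ?_
      have e : (cont1 E + δ) / δ = cont1 E / δ + 1 := by field_simp
      rw [e]
      nlinarith
    have hn0 : (0 : ℝ) < n := by exact_mod_cast hn1
    have h2 : Real.log n ≤ Real.log (52000 * (1 + cont1 E / δ) ^ 2) := Real.log_le_log hn0 h1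
    rw [Real.log_mul (by norm_num) (by positivity), Real.log_pow] at h2
    have h3 : Real.log 52000 ≤ 12 := by
      have h4 : Real.log 52000 ≤ Real.log ((2 : ℝ) ^ 16) := Real.log_le_log (by norm_num) (by norm_num)
      rw [Real.log_pow] at h4
      have := Real.log_two_lt_d9
      push_cast at h4
      linarith
    push_cast at h2
    nlinarith
  have hsq : √(1 + Real.log n) + 1 / (1 / 32) ≤ 36 * √(1 + L) := by
    have h1 : √(1 + Real.log n) ≤ 4 * √(1 + L) := by
      rw [Real.sqrt_le_left (by positivity), mul_pow, Real.sq_sqrt (by linarith)]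
      linarith
    have h2 : 1 ≤ √(1 + L) := by
      rw [Real.one_le_sqrt]
      linarith
    norm_num
    linarith
  have hfin : C * (√(1 + Real.log n) + 1 / (1 / 32)) * FCC.gam E ≤
      C * 36 * √(1 + L) * FCC.gam E := by
    refine mul_le_mul_of_nonneg_right ?_ hg
    rw [mul_assoc]
    exact mul_le_mul_of_nonneg_left hsq hC.le
  exact ⟨hmain.1.trans hfin, hmain.2.trans hfin⟩

end Pool.Agent.NCP
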