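import Pool.Agent.NCP.NCPM
import Pool.Agent.NCP.Cover

/-!
# The theorem for a compact set near few pieces
-/

set_option autoImplicit false

namespace Pool.Agent.NCP

open MeasureTheory Set Pool.Agent.ANL

open NCPM in
/-- The main theorem. -/
theorem main (hDENS : Stmt_DENS) (hERR : Stmt_ERR) (hGLUE : Stmt_GLUE)
    (hFROST : ANL.Stmt_FROST) (hFAVC : ANL.Stmt_FAVC) :
    ∃ C : ℝ, 0 < C ∧ ∀ (N : ℕ), 1 ≤ N → ∀ (E : Set ℂ) (K : Fin N → Set ℂ) (A θ : ℝ),
      IsCompact E → (∀ i, IsCompact (K i)) → (∀ i, K i ⊆ E) → 1 ≤ A → 0 < θ → θ ≤ 1 →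
      (∀ i, ∀ x ∈ K i, ∀ y ∈ K i, θ * ‖x - y‖ ≤ FCC.gam (K i)) →
      (∀ z ∈ E, ∃ i, ∃ x ∈ K i, ‖z - x‖ ≤ A * Metric.diam (K i)) →
      cont1 E ≤ C * A * (√(1 + Real.log N) + 1 / θ) * FCC.gam E ∧
      FCC.Fav E ≤ C * A * (√(1 + Real.log N) + 1 / θ) * FCC.gam E := by
  classical
  obtain ⟨C, hC, hD⟩ := hDENS
  refine ⟨984 * 384 * (C + 400), by positivity, ?_⟩
  intro N hN E K A θ hEc hK hKE hA hθ0 hθ1 hθ hnear
  choose pq hpqK hpqγ using fun i => diam_ex (K i) θ (hK i) (hθ i)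
  have hcovE : E ⊆ ⋃ i, Metric.closedBall (pq i).1 ((2 * A + 1) * ‖(pq i).1 - (pq i).2‖) := by
    intro z hz
    obtain ⟨i, x, hx, hzx⟩ := hnear z hz
    refine mem_iUnion.2 ⟨i, ?_⟩
    have h1 := hpqK i hx
    rw [Metric.mem_closedBall, dist_eq_norm] at h1 ⊢
    have h2 : Metric.diam (K i) ≤ 2 * ‖(pq i).1 - (pq i).2‖ :=
      (Metric.diam_mono (hpqK i) Metric.isBounded_closedBall).trans
        (Metric.diam_closedBall (norm_nonneg _))
    have h3 : A * Metric.diam (K i) ≤ A * (2 * ‖(pq i).1 - (pq i).2‖) :=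
      mul_le_mul_of_nonneg_left h2 (by linarith)
    calc ‖z - (pq i).1‖ = ‖(z - x) + (x - (pq i).1)‖ := by congr 1; ring
      _ ≤ ‖z - x‖ + ‖x - (pq i).1‖ := norm_add_le _ _
      _ ≤ (2 * A + 1) * ‖(pq i).1 - (pq i).2‖ := by linarith
  obtain ⟨I, hSep, hcov⟩ := sel N E (fun i => (pq i).1) (fun i => (pq i).2) (2 * A + 1)
    (by linarith) hcovE
  have hg := gam_nonneg hEc
  have hlog : 0 ≤ Real.log N := Real.log_natCast_nonneg N
  have hL0 : 0 ≤ √(1 + Real.log N) := Real.sqrt_nonneg _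
  have hθi : 0 < 1 / θ := by positivity
  have key : ∀ η : ℝ, (∀ R, Cov (⋃ i ∈ I, segment ℝ (pq i).1 (pq i).2) R → η ≤ R) →
      η ≤ 384 * (C * √(1 + Real.log N) + 200 / (θ / 2)) * FCC.gam E := by
    intro η hη
    have hθ2 : 0 < 200 / (θ / 2) := by positivity
    rcases I.eq_empty_or_nonempty with hI | hI
    · have h1 := hη 0 ⟨0, Fin.elim0, Fin.elim0, fun i => i.elim0, by simp [hI], by simp⟩
      exact h1.trans (by positivity)
    obtain ⟨i0, hi0, hmin⟩ := I.exists_min_image (fun i => ‖(pq i).1 - (pq i).2‖) hI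
    have hd0 := hSep.pos i0 hi0
    set ε : ℝ := ‖(pq i0).1 - (pq i0).2‖ / 2 with hε
    have hεp : 0 < ε := by positivity
    have hεI : ∀ i ∈ I, ε < ‖(pq i).1 - (pq i).2‖ := by
      intro i hi
      have := hmin i hi
      linarith
    have hFc : IsCompact (⋃ i ∈ I, segment ℝ (pq i).1 (pq i).2) :=
      I.isCompact_biUnion fun i _ => segment_compact _ _
    obtain ⟨X, m, hXF, hgrow, hmass⟩ := hFROST _ η hFc hη ε hεp
    -- labels
    have hex : ∀ x : ℂ, ∃ i : Fin N, x ∈ X → i ∈ I ∧ x ∈ segment ℝ (pq i).1 (pq i).2 := by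
      intro x
      by_cases hx : x ∈ X
      · obtain ⟨i, hi, hxi⟩ := mem_iUnion₂.1 (hXF x hx)
        exact ⟨i, fun _ => ⟨hi, hxi⟩⟩
      · exact ⟨i0, fun h => absurd h hx⟩
    choose lab hlab using hex
    have hLab : Lab I (fun i => (pq i).1) (fun i => ‖(pq i).1 - (pq i).2‖) X lab := by
      intro x hx
      obtain ⟨h1, h2⟩ := hlab x hx
      refine ⟨h1, ?_⟩
      have h3 : segment ℝ (pq (lab x)).1 (pq (lab x)).2 ⊆
          Metric.closedBall (pq (lab x)).1 ‖(pq (lab x)).1 - (pq (lab x)).2‖ :=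
        (convex_closedBall _ _).segment_subset
          (Metric.mem_closedBall_self (norm_nonneg _))
          (by rw [Metric.mem_closedBall, dist_comm, dist_eq_norm])
      have h4 := h3 h2
      rwa [Metric.mem_closedBall, dist_eq_norm] at h4
    obtain ⟨J, hJI, hJm, hJe⟩ := hERR N I (fun i => (pq i).1) (fun i => ‖(pq i).1 - (pq i).2‖)
      X m lab ε hεp hgrow hSep (fun i hi => (hεI i hi).le) hLab
    set Y : Finset ℂ := X.filter (fun x => lab x ∈ J) with hY
    have hYX : Y ⊆ X := Finset.filter_subset _ _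
    have hYJ : ∀ x ∈ Y, lab x ∈ J := fun x hx => (Finset.mem_filter.1 hx).2
    have hgY : Grow Y m ε := grow_sub hgrow hYX
    have hOn : OnG Y lab (fun _ => 0) := by
      refine ⟨fun _ => le_rfl, fun x hx y hy z hz hyx hzx => ?_⟩
      have h1 := (hlab x (hYX hx)).2
      have h2 := (hlab y (hYX hy)).2
      have h3 := (hlab z (hYX hz)).2
      rw [hyx] at h2
      rw [hzx] at h3
      rw [crs_segment h1 h2 h3]
      simp
    obtain ⟨w, hw, hwm, hwB⟩ := hD N lab Y m ε hN hεp hgY hOn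
    have hSepJ : Sep J (fun i => (pq i).1) (fun i => ‖(pq i).1 - (pq i).2‖) :=
      ⟨fun i hi => hSep.pos i (hJI hi), fun i hi j hj => hSep.sep i (hJI hi) j (hJI hj)⟩
    have hLabJ : Lab J (fun i => (pq i).1) (fun i => ‖(pq i).1 - (pq i).2‖) Y lab :=
      fun x hx => ⟨hYJ x hx, (hLab x (hYX hx)).2⟩
    have hwm1 : ∀ i, ms Y w lab i ≤ ms X m lab i := by
      intro i
      unfold ms
      refine (Finset.sum_le_sum fun x hx => (hw x (Finset.mem_filter.1 hx).1).2).trans ?_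
      refine Finset.sum_le_sum_of_subset_of_nonneg (Finset.filter_subset_filter _ hYX) ?_
      intro x hx _
      exact hgrow.1 x (Finset.mem_filter.1 hx).1
    have hms : ∀ i ∈ J, ms Y w lab i ≤ ‖(pq i).1 - (pq i).2‖ := by
      intro i hi
      refine (hwm1 i).trans (le_trans ?_ (hgrow.2 (pq i).1 ‖(pq i).1 - (pq i).2‖
        (hεI i (hJI hi)).le))
      unfold ms
      refine Finset.sum_le_sum_of_subset_of_nonneg ?_ ?_
      · intro x hx
        obtain ⟨h1, h2⟩ := Finset.mem_filter.1 hx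
        refine Finset.mem_filter.2 ⟨h1, ?_⟩
        have := (hLab x h1).2
        rwa [h2] at this
      · intro x hx _
        exact hgrow.1 x (Finset.mem_filter.1 hx).1
    have hms0 : ∀ i, 0 ≤ ms Y w lab i := fun i =>
      Finset.sum_nonneg fun x hx => (hw x (Finset.mem_filter.1 hx).1).1
    have hfe : ∀ i, ∃ f : ℂ → ℂ, i ∈ J → Adm (K i) f (ms Y w lab i) ∧
        ∀ z ∉ K i, ‖f z‖ ≤ ms Y w lab i / (θ / 2 * ‖(pq i).1 - (pq i).2‖) := by
      intro i
      by_cases hi : i ∈ J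
      · obtain ⟨f, hf⟩ := fun_ex (K i) θ ‖(pq i).1 - (pq i).2‖ (ms Y w lab i) (hK i) hθ0
          (hSepJ.pos i hi) (hpqγ i) (hms0 i)
        exact ⟨f, fun _ => hf⟩
      · exact ⟨fun _ => 0, fun h => absurd h hi⟩
    choose f hf using hfe
    have hmain := hGLUE N J K (fun i => (pq i).1) (fun i => ‖(pq i).1 - (pq i).2‖) f Y w lab ε
      (C * √(1 + Real.log N)) (θ / 2) hSepJ hεp (fun i hi => hεI i (hJI hi)) hLabJ
      (fun x hx => (hw x hx).1) hms hwB (fun i hi => by
        refine le_trans (Finset.sum_le_sum fun j _ => ?_) (hJe i hi)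
        exact div_le_div_of_nonneg_right (mul_le_mul_of_nonneg_right (hwm1 j) (norm_nonneg _))
          (by positivity)) (by positivity) (by linarith) (by positivity) hK
      (fun i _ => hpqK i) (fun i hi => (hf i hi).1) (fun i hi => (hf i hi).2)
    have hsub : (⋃ i ∈ J, K i) ⊆ E := iUnion₂_subset fun i _ => hKE i
    have h2 := hmain.trans (gam_mono hEc hsub)
    have hBp : 0 < C * √(1 + Real.log N) + 200 / (θ / 2) := by positivity
    rw [div_le_iff₀ hBp] at h2
    calc η ≤ 384 * ∑ x ∈ Y, w x := by linarith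
      _ ≤ 384 * (FCC.gam E * (C * √(1 + Real.log N) + 200 / (θ / 2))) := by linarith
      _ = _ := by ring
  -- the constants
  have hS : 384 * (C * √(1 + Real.log N) + 200 / (θ / 2)) * FCC.gam E ≤
      384 * (C + 400) * (√(1 + Real.log N) + 1 / θ) * FCC.gam E := by
    refine mul_le_mul_of_nonneg_right ?_ hg
    have e : 200 / (θ / 2) = 400 * (1 / θ) := by
      field_simp
      norm_num
    rw [e]
    nlinarith [mul_nonneg hC.le hθi.le, mul_nonneg hC.le hL0]
  set G : ℝ := (√(1 + Real.log N) + 1 / θ) * FCC.gam E with hG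
  have hG0 : 0 ≤ G := by positivity
  have hCG : 0 ≤ (C + 400) * G := by positivity
  have hA0 : 0 < A := by linarith
  -- `2 A + 1 ≤ 3 A`
  have hcov' : ∀ R, Cov (⋃ i ∈ I, segment ℝ (pq i).1 (pq i).2) R →
      cont1 E ≤ 2 * (41 * (2 * A + 1) * R) ∧ FCC.Fav E ≤ 2 * Real.pi * (41 * (2 * A + 1) * R) ∧
        0 ≤ R := by
    intro R hR
    have hR0 : 0 ≤ R := by
      obtain ⟨n, c, ρ, h0, -, h2⟩ := hR
      exact (Finset.sum_nonneg fun i _ => h0 i).trans h2
    have h1 := hFAVC _ _ (hcov R hR)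
    exact ⟨h1.2, h1.1, hR0⟩
  constructor
  · have h1 := key (cont1 E / (246 * A)) (fun R hR => by
      obtain ⟨h1, -, h3⟩ := hcov' R hR
      rw [div_le_iff₀ (by positivity)]
      nlinarith)
    have h2 : cont1 E / (246 * A) ≤ 384 * ((C + 400) * G) := by
      refine (h1.trans hS).trans (le_of_eq ?_)
      rw [hG]
      ring
    rw [div_le_iff₀ (by positivity)] at h2
    calc cont1 E ≤ 384 * ((C + 400) * G) * (246 * A) := h2
      _ ≤ 384 * ((C + 400) * G) * (984 * A) := by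
          refine mul_le_mul_of_nonneg_left ?_ (by positivity)
          linarith
      _ = _ := by rw [hG]; ring
  · have hpi : Real.pi ≤ 4 := Real.pi_le_four
    have hpi0 := Real.pi_pos
    have h1 := key (FCC.Fav E / (984 * A)) (fun R hR => by
      obtain ⟨-, h2, h3⟩ := hcov' R hR
      rw [div_le_iff₀ (by positivity)]
      have h4 : 2 * Real.pi * (41 * (2 * A + 1) * R) ≤ 2 * 4 * (41 * (2 * A + 1) * R) :=
        mul_le_mul_of_nonneg_right (by linarith) (by positivity)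
      nlinarith)
    have h2 : FCC.Fav E / (984 * A) ≤ 384 * ((C + 400) * G) := by
      refine (h1.trans hS).trans (le_of_eq ?_)
      rw [hG]
      ring
    rw [div_le_iff₀ (by positivity)] at h2
    calc FCC.Fav E ≤ 384 * ((C + 400) * G) * (984 * A) := h2
      _ = _ := by rw [hG]; ring

end Pool.Agent.NCP
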