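import Mathlib
import Pool.Agent.NCP.Stmts2

/-!
# NETM: the number of separated points of a set with large components (MP_98e313_an)
-/

set_option autoImplicit false

namespace Pool.Agent.NCP

open MeasureTheory Set Pool.Agent.ANL

namespace NETM

/-- The distance of two points of a connected set is at most the sum of the diameters of the balls
of a cover. -/
theorem len_conn {n : ℕ} (c : Fin n → ℂ) (ρ : Fin n → ℝ) (hρ : ∀ k, 0 ≤ ρ k) (p q : ℂ)
    (S : Finset (Fin n)) (C : Set ℂ) (hC : IsPreconnected C) (hp : p ∈ C) (hq : q ∈ C)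
    (h : ∀ z ∈ C, ∃ k ∈ S, z ∈ Metric.closedBall (c k) (ρ k)) :
    ‖p - q‖ ≤ ∑ k ∈ S, 2 * ρ k := by
  rcases eq_or_ne p q with rfl | hpq
  · rw [sub_self, norm_zero]
    exact Finset.sum_nonneg fun k _ => by linarith [hρ k]
  have hD : 0 < ‖q - p‖ := norm_pos_iff.2 (sub_ne_zero.2 hpq.symm)
  -- the projection
  let f : ℂ → ℝ := fun z => ((z - p) * (starRingEnd ℂ) (q - p)).re / ‖q - p‖
  have hf : ∀ z w, |f z - f w| ≤ ‖z - w‖ := by
    intro z w
    have h1 : f z - f w = ((z - w) * (starRingEnd ℂ) (q - p)).re / ‖q - p‖ := by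
      change _ / _ - _ / _ = _
      rw [← sub_div, ← Complex.sub_re, ← sub_mul, sub_sub_sub_cancel_right]
    rw [h1, abs_div, abs_of_pos hD, div_le_iff₀ hD]
    refine (Complex.abs_re_le_norm _).trans ?_
    rw [norm_mul, Complex.norm_conj]
  have hfc : Continuous f := by
    refine (LipschitzWith.of_dist_le_mul (K := 1) fun z w => ?_).continuous
    rw [Real.dist_eq, dist_eq_norm, NNReal.coe_one, one_mul]
    exact hf z w
  have hfp : f p = 0 := by
    change ((p - p) * (starRingEnd ℂ) (q - p)).re / ‖q - p‖ = 0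
    simp
  have hfq : f q = ‖q - p‖ := by
    change ((q - p) * (starRingEnd ℂ) (q - p)).re / ‖q - p‖ = ‖q - p‖
    rw [Complex.mul_conj, Complex.normSq_eq_norm_sq, Complex.ofReal_re]
    field_simp
  have hseg : Icc (0 : ℝ) ‖q - p‖ ⊆
      ⋃ k ∈ S, Icc (f (c k) - ρ k) (f (c k) + ρ k) := by
    intro t ht
    have h2 : t ∈ f '' C := by
      have h3 := (hC.image f hfc.continuousOn).Icc_subset (mem_image_of_mem f hp)
        (mem_image_of_mem f hq)
      rw [hfp, hfq] at h3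
      exact h3 ht
    obtain ⟨z, hz, rfl⟩ := h2
    obtain ⟨k, hk, h3⟩ := h z hz
    refine mem_iUnion₂.2 ⟨k, hk, ?_⟩
    have h5 := hf z (c k)
    rw [Metric.mem_closedBall, dist_eq_norm] at h3
    have h6 := abs_le.1 (h5.trans h3)
    constructor
    · linarith [h6.1]
    · linarith [h6.2]
  have h7 : volume (Icc (0 : ℝ) ‖q - p‖) ≤
      ∑ k ∈ S, volume (Icc (f (c k) - ρ k) (f (c k) + ρ k)) :=
    (measure_mono hseg).trans (measure_biUnion_finset_le S _)
  have h8 : ∀ k, volume (Icc (f (c k) - ρ k) (f (c k) + ρ k)) = ENNReal.ofReal (2 * ρ k) := by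
    intro k
    rw [Real.volume_Icc]
    congr 1
    ring
  rw [Real.volume_Icc, sub_zero] at h7
  simp only [h8] at h7
  rw [← ENNReal.ofReal_sum_of_nonneg fun k _ => by linarith [hρ k]] at h7
  rw [norm_sub_rev]
  exact (ENNReal.ofReal_le_ofReal_iff (Finset.sum_nonneg fun k _ => by linarith [hρ k])).1 h7

/-- the number of values of the integer part -/
theorem card_floor (a b : ℝ) (hab : a ≤ b) :
    ((Finset.Icc ⌊a⌋ ⌊b⌋).card : ℝ) ≤ b - a + 2 := by
  have h1 : ⌊a⌋ ≤ ⌊b⌋ := Int.floor_le_floor hab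
  rw [Int.card_Icc]
  have h2 : (((⌊b⌋ + 1 - ⌊a⌋).toNat : ℤ) : ℝ) = ((⌊b⌋ + 1 - ⌊a⌋ : ℤ) : ℝ) := by
    rw [Int.toNat_of_nonneg (by linarith)]
  have h3 : (((⌊b⌋ + 1 - ⌊a⌋).toNat : ℕ) : ℝ) = ((⌊b⌋ + 1 - ⌊a⌋ : ℤ) : ℝ) := by
    rw [← h2]
    norm_cast
  rw [h3]
  push_cast
  have h4 := Int.floor_le b
  have h5 := Int.lt_floor_add_one a
  linarith

/-- the number of separated points of a ball -/
theorem card_ball (δ r : ℝ) (c : ℂ) (hδ : 0 < δ) (hr : 0 ≤ r) (T : Finset ℂ)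
    (hT : ∀ x ∈ T, ∀ y ∈ T, x ≠ y → δ / 4 < ‖x - y‖) (hc : ∀ x ∈ T, ‖c - x‖ ≤ r) :
    (T.card : ℝ) ≤ (16 * r / δ + 2) ^ 2 := by
  classical
  let f : ℂ → ℤ × ℤ := fun z => (⌊8 * z.re / δ⌋, ⌊8 * z.im / δ⌋)
  have hre : ∀ x ∈ T, |c.re - x.re| ≤ r := fun x hx => by
    have h1 := Complex.abs_re_le_norm (c - x)
    rw [Complex.sub_re] at h1
    exact h1.trans (hc x hx)
  have him : ∀ x ∈ T, |c.im - x.im| ≤ r := fun x hx => by
    have h1 := Complex.abs_im_le_norm (c - x)
    rw [Complex.sub_im] at h1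
    exact h1.trans (hc x hx)
  have hmaps : ∀ x ∈ T, f x ∈ Finset.Icc ⌊8 * (c.re - r) / δ⌋ ⌊8 * (c.re + r) / δ⌋ ×ˢ
      Finset.Icc ⌊8 * (c.im - r) / δ⌋ ⌊8 * (c.im + r) / δ⌋ := by
    intro x hx
    have h1 := abs_le.1 (hre x hx)
    have h2 := abs_le.1 (him x hx)
    rw [Finset.mem_product, Finset.mem_Icc, Finset.mem_Icc]
    refine ⟨⟨Int.floor_le_floor ?_, Int.floor_le_floor ?_⟩,
      ⟨Int.floor_le_floor ?_, Int.floor_le_floor ?_⟩⟩
    all_goals
      apply div_le_div_of_nonneg_right _ hδ.le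
      linarith [h1.1, h1.2, h2.1, h2.2]
  have hinj : Set.InjOn f T := by
    intro x hx y hy hxy
    by_contra hne
    have h1 := hT x hx y hy hne
    have h2 : ⌊8 * x.re / δ⌋ = ⌊8 * y.re / δ⌋ := congrArg Prod.fst hxy
    have h3 : ⌊8 * x.im / δ⌋ = ⌊8 * y.im / δ⌋ := congrArg Prod.snd hxy
    have h4 := Int.abs_sub_lt_one_of_floor_eq_floor h2
    have h5 := Int.abs_sub_lt_one_of_floor_eq_floor h3
    have h6 : |x.re - y.re| < δ / 8 := by
      have h7 : 8 * x.re / δ - 8 * y.re / δ = (x.re - y.re) * (8 / δ) := by ring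
      rw [h7, abs_mul, abs_of_pos (by positivity : 0 < 8 / δ), ← lt_div_iff₀ (by positivity)] at h4
      rwa [one_div_div] at h4
    have h6' : |x.im - y.im| < δ / 8 := by
      have h7 : 8 * x.im / δ - 8 * y.im / δ = (x.im - y.im) * (8 / δ) := by ring
      rw [h7, abs_mul, abs_of_pos (by positivity : 0 < 8 / δ), ← lt_div_iff₀ (by positivity)] at h5
      rwa [one_div_div] at h5
    have h8 := Complex.norm_le_abs_re_add_abs_im (x - y)
    rw [Complex.sub_re, Complex.sub_im] at h8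
    linarith
  have hcard := Finset.card_le_card_of_injOn f hmaps hinj
  rw [Finset.card_product] at hcard
  have hcard' : (T.card : ℝ) ≤
      ((Finset.Icc ⌊8 * (c.re - r) / δ⌋ ⌊8 * (c.re + r) / δ⌋).card : ℝ) *
        ((Finset.Icc ⌊8 * (c.im - r) / δ⌋ ⌊8 * (c.im + r) / δ⌋).card : ℝ) := by
    exact_mod_cast hcard
  have h1 := card_floor (8 * (c.re - r) / δ) (8 * (c.re + r) / δ)
    (div_le_div_of_nonneg_right (by linarith) hδ.le)
  have h2 := card_floor (8 * (c.im - r) / δ) (8 * (c.im + r) / δ)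
    (div_le_div_of_nonneg_right (by linarith) hδ.le)
  have h3 : 8 * (c.re + r) / δ - 8 * (c.re - r) / δ + 2 = 16 * r / δ + 2 := by ring
  have h4 : 8 * (c.im + r) / δ - 8 * (c.im - r) / δ + 2 = 16 * r / δ + 2 := by ring
  rw [h3] at h1
  rw [h4] at h2
  refine hcard'.trans ?_
  rw [sq]
  exact mul_le_mul h1 h2 (Nat.cast_nonneg _) ((Nat.cast_nonneg _).trans h1)

end NETM

open NETM in
/-- NETM: the number of separated points. -/
theorem NETM_thm (hBUMP : Stmt_BUMP) : Stmt_NETM := by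
  classical
  intro E δ R hE hδ hS hR T hTE hT
  obtain ⟨n, c, ρ, hρ, hcov, hsum⟩ := hR
  have hR0 : 0 ≤ R := (Finset.sum_nonneg fun k _ => hρ k).trans hsum
  let P : ℂ → Prop := fun x => ∃ k, δ / 32 ≤ ρ k ∧ ‖c k - x‖ ≤ ρ k + δ / 16
  -- the large points
  have hL : ((T.filter P).card : ℝ) ≤ 12544 * (R / δ) ^ 2 := by
    let S1 : Finset (Fin n) := Finset.univ.filter fun k => δ / 32 ≤ ρ k
    let T1 : Fin n → Finset ℂ := fun k => T.filter fun x => ‖c k - x‖ ≤ 3 * ρ k
    have h1 : T.filter P ⊆ S1.biUnion T1 := by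
      intro x hx
      obtain ⟨hx1, k, hk1, hk2⟩ := Finset.mem_filter.1 hx
      refine Finset.mem_biUnion.2 ⟨k, Finset.mem_filter.2 ⟨Finset.mem_univ _, hk1⟩,
        Finset.mem_filter.2 ⟨hx1, ?_⟩⟩
      linarith
    have h2 : ((T.filter P).card : ℝ) ≤ ∑ k ∈ S1, ((T1 k).card : ℝ) := by
      have h3 := (Finset.card_le_card h1).trans Finset.card_biUnion_le
      exact_mod_cast h3
    have h3 : ∀ k ∈ S1, ((T1 k).card : ℝ) ≤ 12544 / δ ^ 2 * ρ k ^ 2 := by
      intro k hk
      have hk1 : δ / 32 ≤ ρ k := (Finset.mem_filter.1 hk).2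
      have h4 := card_ball δ (3 * ρ k) (c k) hδ (by linarith [hρ k]) (T1 k)
        (fun x hx y hy => hT x (Finset.mem_filter.1 hx).1 y (Finset.mem_filter.1 hy).1)
        (fun x hx => (Finset.mem_filter.1 hx).2)
      refine h4.trans ?_
      have h5 : 16 * (3 * ρ k) / δ + 2 ≤ 112 * ρ k / δ := by
        rw [← sub_nonneg]
        have h6 : 112 * ρ k / δ - (16 * (3 * ρ k) / δ + 2) = (64 * ρ k - 2 * δ) / δ := by
          field_simp
          ring
        rw [h6]
        apply div_nonneg _ hδ.le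
        linarith
      have h7 : 0 ≤ 16 * (3 * ρ k) / δ + 2 := by
        have := hρ k
        positivity
      calc (16 * (3 * ρ k) / δ + 2) ^ 2 ≤ (112 * ρ k / δ) ^ 2 := pow_le_pow_left₀ h7 h5 2
        _ = 12544 / δ ^ 2 * ρ k ^ 2 := by ring
    have h4 : ∑ k ∈ S1, ρ k ^ 2 ≤ R ^ 2 := by
      calc ∑ k ∈ S1, ρ k ^ 2 ≤ ∑ k, ρ k ^ 2 :=
            Finset.sum_le_sum_of_subset_of_nonneg (Finset.subset_univ _) fun k _ _ => sq_nonneg _
        _ ≤ (∑ k, ρ k) ^ 2 := Finset.sum_sq_le_sq_sum_of_nonneg fun k _ => hρ k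
        _ ≤ R ^ 2 := pow_le_pow_left₀ (Finset.sum_nonneg fun k _ => hρ k) hsum 2
    calc ((T.filter P).card : ℝ) ≤ ∑ k ∈ S1, ((T1 k).card : ℝ) := h2
      _ ≤ ∑ k ∈ S1, 12544 / δ ^ 2 * ρ k ^ 2 := Finset.sum_le_sum h3
      _ = 12544 / δ ^ 2 * ∑ k ∈ S1, ρ k ^ 2 := by rw [Finset.mul_sum]
      _ ≤ 12544 / δ ^ 2 * R ^ 2 := mul_le_mul_of_nonneg_left h4 (by positivity)
      _ = 12544 * (R / δ) ^ 2 := by ring
  -- the other points
  have hM : ((T.filter fun x => ¬ P x).card : ℝ) ≤ 32 * (R / δ) := by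
    have hC : ∀ x : ℂ, ∃ C : Set ℂ, x ∈ T → C ⊆ E ∩ Metric.closedBall x (δ / 16) ∧
        IsPreconnected C ∧ x ∈ C ∧ ∃ y ∈ C, ‖y - x‖ = δ / 16 := by
      intro x
      by_cases hx : x ∈ T
      · obtain ⟨S, hSE, hSc, hxS, hSd⟩ := hS x (hTE x hx)
        have hKE : closure S ⊆ E := closure_minimal hSE hE.isClosed
        have hy : ∃ y ∈ closure S, δ / 16 < ‖y - x‖ := by
          by_contra hcon
          push Not at hcon
          have h1 : S ⊆ Metric.closedBall x (δ / 16) := by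
            intro y hy
            rw [Metric.mem_closedBall, dist_eq_norm]
            exact hcon y (subset_closure hy)
          have h2 := Metric.diam_mono h1 Metric.isBounded_closedBall
          have h3 := Metric.diam_closedBall (x := x) (r := δ / 16) (by positivity)
          linarith
        obtain ⟨C, h1, -, h3, h4, h5⟩ := hBUMP (closure S) x (δ / 16)
          (hE.of_isClosed_subset isClosed_closure hKE) hSc.closure (subset_closure hxS)
          (by positivity) hy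
        exact ⟨C, fun _ => ⟨h1.trans (inter_subset_inter_left _ hKE), h3, h4, h5⟩⟩
      · exact ⟨∅, fun h => absurd h hx⟩
    choose C hC using hC
    let S : ℂ → Finset (Fin n) := fun x =>
      Finset.univ.filter fun k => ∃ z ∈ C x, z ∈ Metric.closedBall (c k) (ρ k)
    have hSm : ∀ x k, k ∈ S x ↔ ∃ z ∈ C x, z ∈ Metric.closedBall (c k) (ρ k) := by
      intro x k
      simp [S]
    have hlen : ∀ x ∈ T.filter (fun x => ¬ P x), δ / 16 ≤ ∑ k ∈ S x, 2 * ρ k := by
      intro x hx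
      obtain ⟨h1, h2, h3, y, h4, h5⟩ := hC x (Finset.mem_filter.1 hx).1
      have h6 := len_conn c ρ hρ y x (S x) (C x) h2 h4 h3 fun z hz => by
        obtain ⟨k, hk⟩ := mem_iUnion.1 (hcov (h1 hz).1)
        exact ⟨k, (hSm x k).2 ⟨z, hz, hk⟩, hk⟩
      rwa [h5] at h6
    have hnear : ∀ x ∈ T.filter (fun x => ¬ P x), ∀ k ∈ S x, ‖c k - x‖ < δ / 8 := by
      intro x hx k hk
      obtain ⟨hxT, hxP⟩ := Finset.mem_filter.1 hx
      obtain ⟨h1, -⟩ := hC x hxT
      obtain ⟨z, hz, hzk⟩ := (hSm x k).1 hk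
      have h2 := (h1 hz).2
      rw [Metric.mem_closedBall, dist_eq_norm] at h2 hzk
      have h3 : ‖c k - x‖ ≤ ρ k + δ / 16 := by
        calc ‖c k - x‖ = ‖(z - x) - (z - c k)‖ := by congr 1; ring
          _ ≤ ‖z - x‖ + ‖z - c k‖ := norm_sub_le _ _
          _ ≤ ρ k + δ / 16 := by linarith
      have h4 : ρ k < δ / 32 := by
        by_contra h5
        exact hxP ⟨k, not_lt.1 h5, h3⟩
      linarith
    have h1 : ∑ x ∈ T.filter (fun x => ¬ P x), δ / 16 ≤ 2 * R := by
      calc ∑ x ∈ T.filter (fun x => ¬ P x), δ / 16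
          ≤ ∑ x ∈ T.filter (fun x => ¬ P x), ∑ k ∈ S x, 2 * ρ k := Finset.sum_le_sum hlen
        _ = ∑ k ∈ (T.filter fun x => ¬ P x).biUnion S, 2 * ρ k := by
            rw [Finset.sum_biUnion]
            intro x hx y hy hxy
            rw [Function.onFun, Finset.disjoint_left]
            intro k h2 h3
            have h4 := hnear x hx k h2
            have h5 := hnear y hy k h3
            have h6 := hT x (Finset.mem_filter.1 hx).1 y (Finset.mem_filter.1 hy).1 hxy
            have h7 : ‖x - y‖ ≤ ‖c k - x‖ + ‖c k - y‖ := by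
              calc ‖x - y‖ = ‖(c k - y) - (c k - x)‖ := by congr 1; ring
                _ ≤ ‖c k - y‖ + ‖c k - x‖ := norm_sub_le _ _
                _ = ‖c k - x‖ + ‖c k - y‖ := add_comm _ _
            linarith
        _ ≤ ∑ k, 2 * ρ k := Finset.sum_le_sum_of_subset_of_nonneg (Finset.subset_univ _)
            fun k _ _ => by linarith [hρ k]
        _ = 2 * ∑ k, ρ k := by rw [Finset.mul_sum]
        _ ≤ 2 * R := by linarith
    rw [Finset.sum_const, nsmul_eq_mul] at h1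
    have h2 : 32 * (R / δ) = 2 * R / (δ / 16) := by
      field_simp
      ring
    rw [h2, le_div_iff₀ (by positivity)]
    exact h1
  have hsplit : (T.card : ℝ) = (T.filter P).card + (T.filter fun x => ¬ P x).card := by
    have h1 := Finset.card_filter_add_card_filter_not (s := T) P
    rw [← h1]
    push_cast
    rfl
  have hq : 0 ≤ R / δ := div_nonneg hR0 hδ.le
  rw [hsplit]
  nlinarith [hL, hM, hq, sq_nonneg (R / δ)]

end Pool.Agent.NCP
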