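import Mathlib
import Pool.Agent.NCP.Stmts
import Pool.Agent.ANL.CHORD

/-!
# SELC: selection of separated sets, and comparison of the contents
-/

set_option autoImplicit false

namespace Pool.Agent.NCP

open MeasureTheory Set Pool.Agent.ANL

open ANL.CHORD in
/-- SELC: selection of separated sets, and comparison of the contents. -/
theorem SELC_thm : Stmt_SELC := by
  intro N K p q hK
  classical
  obtain ⟨J, hJI, hJ1, hJ2⟩ := greedy (fun i => ‖p i - q i‖)
    (fun i j => ‖p i - p j‖ ≤ 5 * max ‖p i - q i‖ ‖p j - q j‖)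
    (fun i j h => by rw [norm_sub_rev, max_comm]; exact h)
    (Finset.univ.filter fun i => 0 < ‖p i - q i‖) (fun i _ => by
      rw [sub_self, norm_zero]
      positivity)
  have hpos : ∀ i ∈ J, 0 < ‖p i - q i‖ := fun i hi => (Finset.mem_filter.1 (hJI hi)).2
  have hsep : ∀ i ∈ J, ∀ j ∈ J, i ≠ j → 5 * max ‖p i - q i‖ ‖p j - q j‖ < ‖p i - p j‖ :=
    fun i hi j hj hij => not_le.1 (hJ1 i hi j hj hij)
  refine ⟨J, ⟨hpos, fun i hi j hj hij => ?_⟩, ?_⟩
  · have h := hsep i hi j hj hij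
    have h1 := le_max_left ‖p i - q i‖ ‖p j - q j‖
    have h2 := le_max_right ‖p i - q i‖ ‖p j - q j‖
    constructor
    · linarith
    · linarith
  intro R hR
  obtain ⟨n, c, ρ, hρ, hcov, hsum⟩ := hR
  -- the balls which meet the segment
  let S : Fin N → Finset (Fin n) := fun i =>
    Finset.univ.filter fun k => ∃ z ∈ segment ℝ (p i) (q i), z ∈ Metric.closedBall (c k) (ρ k)
  have hS : ∀ i k, k ∈ S i ↔ ∃ z ∈ segment ℝ (p i) (q i), z ∈ Metric.closedBall (c k) (ρ k) := by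
    intro i k
    simp [S]
  have hcS : ∀ i ∈ J, ∀ z ∈ segment ℝ (p i) (q i),
      ∃ k ∈ S i, z ∈ Metric.closedBall (c k) (ρ k) := by
    intro i hi z hz
    obtain ⟨k, hk⟩ := mem_iUnion.1 (hcov (mem_iUnion₂.2 ⟨i, hi, hz⟩))
    exact ⟨k, (hS i k).2 ⟨z, hz, hk⟩, hk⟩
  have hlen : ∀ i ∈ J, ‖p i - q i‖ ≤ ∑ k ∈ S i, 2 * ρ k := fun i hi =>
    length_le c ρ hρ (p i) (q i) (S i) (hcS i hi)
  have hSd : ∀ i, ∀ k ∈ S i, ‖p i - c k‖ ≤ ‖p i - q i‖ + ρ k := by
    intro i k hk
    obtain ⟨z, hz, hzk⟩ := (hS i k).1 hk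
    rw [Metric.mem_closedBall, dist_eq_norm] at hzk
    have h1 : ‖p i - z‖ ≤ ‖p i - q i‖ :=
      dist_le (by rw [sub_self, norm_zero]; exact norm_nonneg _) le_rfl hz
    calc ‖p i - c k‖ = ‖(p i - z) + (z - c k)‖ := by congr 1; ring
      _ ≤ ‖p i - z‖ + ‖z - c k‖ := norm_add_le _ _
      _ ≤ _ := add_le_add h1 hzk
  -- the indices which are not large
  let I : Finset (Fin N) := J.filter fun i => ∀ k ∈ S i, 4 * ρ k < ‖p i - q i‖
  have hI : ∀ i, i ∈ I ↔ i ∈ J ∧ ∀ k ∈ S i, 4 * ρ k < ‖p i - q i‖ := by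
    intro i
    simp [I]
  have hJsum : ∑ i ∈ I, ‖p i - q i‖ ≤ 2 * R := by
    calc ∑ i ∈ I, ‖p i - q i‖ ≤ ∑ i ∈ I, ∑ k ∈ S i, 2 * ρ k :=
          Finset.sum_le_sum fun i hi => hlen i ((hI i).1 hi).1
      _ = ∑ k ∈ I.biUnion S, 2 * ρ k := by
          rw [Finset.sum_biUnion]
          intro i hi j hj hij
          rw [Function.onFun, Finset.disjoint_left]
          intro k h1 h2
          obtain ⟨hiJ, hi'⟩ := (hI i).1 hi
          obtain ⟨hjJ, hj'⟩ := (hI j).1 hj
          have a1 := hi' k h1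
          have a2 := hj' k h2
          have a3 := hSd i k h1
          have a4 := hSd j k h2
          have a5 : ‖p i - p j‖ ≤ ‖p i - c k‖ + ‖p j - c k‖ := by
            calc ‖p i - p j‖ = ‖(p i - c k) - (p j - c k)‖ := by congr 1; ring
              _ ≤ _ := norm_sub_le _ _
          have a6 := hsep i hiJ j hjJ hij
          have a7 := le_max_left ‖p i - q i‖ ‖p j - q j‖
          have a8 := le_max_right ‖p i - q i‖ ‖p j - q j‖
          have a9 := norm_nonneg (p i - q i)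
          linarith
      _ ≤ ∑ k, 2 * ρ k := Finset.sum_le_sum_of_subset_of_nonneg (Finset.subset_univ _)
          fun k _ _ => by linarith [hρ k]
      _ = 2 * ∑ k, ρ k := by rw [Finset.mul_sum]
      _ ≤ 2 * R := by linarith
  refine cov_of (ι := Fin n ⊕ Fin N) (Sum.elim c p)
    (Sum.elim (fun k => 29 * ρ k) fun i => if i ∈ I then 6 * ‖p i - q i‖ else 0) ?_ ?_ ?_
  · rintro (k | i)
    · simp only [Sum.elim_inl]
      linarith [hρ k]
    · simp only [Sum.elim_inr]
      split_ifs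
      · positivity
      · exact le_rfl
  · intro x hx
    obtain ⟨i, hi⟩ := mem_iUnion.1 hx
    have hxi : ‖x - p i‖ ≤ ‖p i - q i‖ := by
      have := hK i hi
      rwa [Metric.mem_closedBall, dist_eq_norm] at this
    rcases eq_or_lt_of_le (norm_nonneg (p i - q i)) with h0 | h0
    · refine mem_iUnion.2 ⟨Sum.inr i, ?_⟩
      simp only [Sum.elim_inr]
      rw [Metric.mem_closedBall, dist_eq_norm]
      rw [← h0] at hxi ⊢
      simp only [mul_zero, ite_self]
      exact hxi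
    · obtain ⟨j, hj, hij, hdij⟩ := hJ2 i (Finset.mem_filter.2 ⟨Finset.mem_univ _, h0⟩)
      have h1 : ‖p i - p j‖ ≤ 5 * ‖p j - q j‖ := by
        have h2 : max ‖p i - q i‖ ‖p j - q j‖ = ‖p j - q j‖ := max_eq_right hdij
        rw [← h2]
        exact hij
      have h3 : ‖x - p j‖ ≤ 6 * ‖p j - q j‖ := by
        calc ‖x - p j‖ = ‖(x - p i) + (p i - p j)‖ := by congr 1; ring
          _ ≤ ‖x - p i‖ + ‖p i - p j‖ := norm_add_le _ _
          _ ≤ 6 * ‖p j - q j‖ := by
            have h4 : ‖p i - q i‖ ≤ ‖p j - q j‖ := hdij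
            linarith
      by_cases hjI : j ∈ I
      · refine mem_iUnion.2 ⟨Sum.inr j, ?_⟩
        simp only [Sum.elim_inr]
        rw [if_pos hjI, Metric.mem_closedBall, dist_eq_norm]
        exact h3
      · have h5 : ∃ k ∈ S j, ‖p j - q j‖ ≤ 4 * ρ k := by
          by_contra hcon
          push Not at hcon
          exact hjI ((hI j).2 ⟨hj, hcon⟩)
        obtain ⟨k, hk, hk'⟩ := h5
        refine mem_iUnion.2 ⟨Sum.inl k, ?_⟩
        simp only [Sum.elim_inl]
        rw [Metric.mem_closedBall, dist_eq_norm]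
        have h6 := hSd j k hk
        calc ‖x - c k‖ = ‖(x - p j) + (p j - c k)‖ := by congr 1; ring
          _ ≤ ‖x - p j‖ + ‖p j - c k‖ := norm_add_le _ _
          _ ≤ 29 * ρ k := by linarith
  · rw [Fintype.sum_sum_type]
    simp only [Sum.elim_inl, Sum.elim_inr]
    rw [← Finset.mul_sum, Finset.sum_ite_mem, Finset.univ_inter, ← Finset.mul_sum]
    linarith

end Pool.Agent.NCP
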